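import Pool.Agent.H5.W.T.Coe
import Pool.Agent.H22.RW.Loss

/-!
# THEOREM W, (THREE): the chain of pieces (module AZC)

`az_eq`: `AZ` is contained in every member; conversely `AZ E J Z₀ r Z` is itself a member and a piece
containing `Z` (`az_lat`, `az_pc`, `sub_az`), so `Az ⊆ AZ`. `ch_eq`: induction on `l`; the members of
the chain are in `V` (`chn_lat`, `OneP.sub`), so `Av` and `Ar` agree for `x` in the chain (`av_iff`) and
`z ∈ V` (`ar_mem`); `az_eq` for `{z}`. `ch_row`: the consequences for the case of loss: monotone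
(`chn_mono`), members of the lattice, `J` of the complement (`chn_compl`, `card_bs`), closed under
arrows (`chn_cls`).
-/

set_option autoImplicit false

namespace Pool.H5.WT

open Set Pool.H22.RW

variable {ι : Type} [Fintype ι] [DecidableEq ι] {n r : ℕ} {E : ι → ℕ → ℕ → ZMod 2}
  {J : Set ℕ → Prop} {a : Fin n → ι} {b : Fin n → ℕ} {V Z₀ Z : Set ℕ} {x y : ℕ}

theorem az_eq (h : Gd E J a b V Z₀ r) (hZ : Z.Finite) (hZV : Z ⊆ V) :
    Az E J Z₀ r Z = AZ E J Z₀ r Z := by
  apply Set.Subset.antisymm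
  · intro v hv
    exact hv _ (az_pc h.one h.crit hZ hZV) (az_lat h.one h.crit hZ hZV) sub_az
  · intro v hv A _ hA hZA
    exact hv A hA hZA

theorem ch_eq (h : Gd E J a b V Z₀ r) (l : ℕ) :
    Ch E J a b Z₀ r l = chn E J Z₀ r (bs a b) ∅ l := by
  induction l with
  | zero => exact az_eq h Set.finite_empty (Set.empty_subset _)
  | succ l ih =>
    have hlat : Lat E J Z₀ r (chn E J Z₀ r (bs a b) ∅ l) :=
      chn_lat h.one h.crit h.gb Set.finite_empty (Set.empty_subset _) l
    have hV : chn E J Z₀ r (bs a b) ∅ l ⊆ V := h.one.sub _ hlat.1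
    ext v
    constructor
    · rintro ⟨z, hz, hv⟩
      rw [ih] at hz
      rcases hz with hz | ⟨x, hx, hxz⟩
      · rw [az_eq h (Set.finite_singleton z) (Set.singleton_subset_iff.2 (hV hz))] at hv
        exact ⟨z, Or.inl hz, hv⟩
      · have h1 := (av_iff h.inj h.one h.gb (hV hx)).1 hxz
        rw [az_eq h (Set.finite_singleton z)
          (Set.singleton_subset_iff.2 (ar_mem h.one h.gb (hV hx) h1))] at hv
        exact ⟨z, Or.inr ⟨x, hx, h1⟩, hv⟩
    · rintro ⟨z, hz, hv⟩
      rcases hz with hz | ⟨x, hx, hxz⟩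
      · rw [← az_eq h (Set.finite_singleton z) (Set.singleton_subset_iff.2 (hV hz))] at hv
        refine ⟨z, Or.inl ?_, hv⟩
        rw [ih]
        exact hz
      · rw [← az_eq h (Set.finite_singleton z)
          (Set.singleton_subset_iff.2 (ar_mem h.one h.gb (hV hx) hxz))] at hv
        refine ⟨z, Or.inr ⟨x, ?_, (av_iff h.inj h.one h.gb (hV hx)).2 hxz⟩, hv⟩
        rw [ih]
        exact hx

theorem ch_lat (h : Gd E J a b V Z₀ r) (l : ℕ) : Lat E J Z₀ r (Ch E J a b Z₀ r l) := by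
  rw [ch_eq h l]
  exact chn_lat h.one h.crit h.gb Set.finite_empty (Set.empty_subset _) l

theorem ch_mono (h : Gd E J a b V Z₀ r) : Monotone (Ch E J a b Z₀ r) := by
  refine monotone_nat_of_le_succ fun l => ?_
  rw [ch_eq h l, ch_eq h (l + 1)]
  exact chn_mono l

theorem ch_cls (h : Gd E J a b V Z₀ r) : Cls (Av E J a b) (⋃ l, Ch E J a b Z₀ r l) := by
  have hV : (⋃ l, Ch E J a b Z₀ r l) ⊆ V :=
    Set.iUnion_subset fun l => h.one.sub _ (ch_lat h l).1
  have he : (⋃ l, Ch E J a b Z₀ r l) = ⋃ l, chn E J Z₀ r (bs a b) ∅ l :=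
    Set.iUnion_congr fun l => ch_eq h l
  intro x hx y hxy
  have h1 := (av_iff h.inj h.one h.gb (hV hx)).1 hxy
  rw [he] at hx ⊢
  exact chn_cls x hx y h1

theorem ch_compl (h : Gd E J a b V Z₀ r) (hn : n < r) : J (V \ ⋃ l, Ch E J a b Z₀ r l) := by
  have he : (⋃ l, Ch E J a b Z₀ r l) = ⋃ l, chn E J Z₀ r (bs a b) ∅ l :=
    Set.iUnion_congr fun l => ch_eq h l
  rw [he]
  refine chn_compl h.one h.crit h.gb Set.finite_empty (Set.empty_subset _) ?_
  rw [card_bs h.inj]
  exact hn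

end Pool.H5.WT
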