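import Pool.Agent.H5.W.T.Bll

/-!
# THEOREM W, (THREE): the canonical chain is of bounded level (module BLC)

`BLs_Az`: for `M ∈ B` by `Nmd.mem` `v ∈ Az ..` iff for all `j` and `y : XP` : if `Φ j M y` is a member
of the lattice (`Jb m lam M (V M x) (Φ j M y)`, `Z₀ x ⊆ Φ j M y`, `kap .. ≤ r`: `BL_jb`, `BL_kap`) and
`S M x ⊆ Φ j M y` then `v ∈ Φ j M y`: `BL_congr`, `BL.allJ`, `BL.all`, `BL.imp`, `BL.and`. Here `S` is any
family of sets of bounded level; inclusions are `∀ v : ℕ, ..` (`BL.all`, `BL.imp`, `BL.mem` for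
`Z₀ x`). `BLs_Ch`: induction; `Az .. {z}` is the family `S M (x, z) = {z}` over `X × ℕ`.
-/

set_option autoImplicit false

namespace Pool.H5.WT

open Set Ordinal Pool.H62.VT Pool.H62.VS Pool.H5.W Pool.H22.RW Pool.H17.W

variable {B : Set (Str ca)} {θ κ₀ lam : Ordinal.{0}} {m K n : ℕ} {JJ XP X : Type} [Prm XP] [Prm X]
  {Φ : JJ → Str ca → XP → Set ℕ} {V S : Str ca → X → Set ℕ} {a : Fin n → Ix m}
  {b : X → Fin n → ℕ} {Z₀ : X → Finset ℕ}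

theorem BLs_Az [Countable JJ] (h : Ctx B θ m K κ₀ Φ) (hl : lam < ω₁) (hV : BLs B V) (hS : BLs B S)
    (hZ : Eqm Z₀) (r : ℕ) : BLs B (fun M x =>
      Az (EM m M) (Jb m lam M (V M x)) (↑(Z₀ x)) r (S M x)) := by
  have h1 : BL B (fun M (q : X × ℕ) => ∀ j, ∀ y : XP,
      (Jb m lam M (V M q.1) (Φ j M y) ∧ (∀ v : ℕ, v ∈ Z₀ q.1 → v ∈ Φ j M y) ∧
        kap (EM m M) (Φ j M y) ≤ (r : ℕ∞)) → (∀ v : ℕ, v ∈ S M q.1 → v ∈ Φ j M y) →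
        q.2 ∈ Φ j M y) := by
    refine BL.allJ fun j => BL.all (P := fun M (q : (X × ℕ) × XP) =>
      (Jb m lam M (V M q.1.1) (Φ j M q.2) ∧ (∀ v : ℕ, v ∈ Z₀ q.1.1 → v ∈ Φ j M q.2) ∧
        kap (EM m M) (Φ j M q.2) ≤ (r : ℕ∞)) → (∀ v : ℕ, v ∈ S M q.1.1 → v ∈ Φ j M q.2) →
        q.1.2 ∈ Φ j M q.2) ?_
    have hp : BLs B (fun M (q : (X × ℕ) × XP) => Φ j M q.2) :=
      BLs.pull (BLs_piece h j) Eqm.snd
    have hx : Eqm (fun q : (X × ℕ) × XP => q.1.1) := Eqm.fst.comp Eqm.fst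
    have hV' : BLs B (fun M (q : (X × ℕ) × XP) => V M q.1.1) := BLs.pull hV hx
    have hS' : BLs B (fun M (q : (X × ℕ) × XP) => S M q.1.1) := BLs.pull hS hx
    refine BL.imp (BL.and (BL_jb h hl hV' hp) (BL.and ?_ (BL_kap hp m r))) (BL.imp ?_ ?_)
    · refine BL.all (P := fun M (q : ((X × ℕ) × XP) × ℕ) =>
        q.2 ∈ Z₀ q.1.1.1 → q.2 ∈ Φ j M q.1.2) ?_
      exact BL.imp (BL.mem Eqm.snd (hZ.comp (hx.comp Eqm.fst))) hp
    · refine BL.all (P := fun M (q : ((X × ℕ) × XP) × ℕ) =>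
        q.2 ∈ S M q.1.1.1 → q.2 ∈ Φ j M q.1.2) ?_
      exact BL.imp hS' hp
    · exact BL.pull (Φ := fun M (q : XP × ℕ) => q.2 ∈ Φ j M q.1) (BLs_piece h j)
        (g := fun q : (X × ℕ) × XP => (q.2, q.1.2)) (Eqm.snd.pair (Eqm.snd.comp Eqm.fst))
  refine BL_congr h1 fun M hM q => ?_
  rw [eq_iff_iff]
  constructor
  · rintro hv j y ⟨h2, h3, h4⟩ h5
    exact hv _ ((h.nmd.mem M hM _).2 ⟨j, y, rfl⟩) ⟨h2, h3, h4⟩ h5
  · rintro hv A hA ⟨h2, h3, h4⟩ h5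
    obtain ⟨j, y, rfl⟩ := (h.nmd.mem M hM A).1 hA
    exact hv j y ⟨h2, h3, h4⟩ h5

theorem BLs_Ch [Countable JJ] (h : Ctx B θ m K κ₀ Φ) (hl : lam < ω₁) (hV : BLs B V) (hb : Eqm b)
    (hZ : Eqm Z₀) (r l : ℕ) : BLs B (fun M x =>
      Ch (EM m M) (Jb m lam M (V M x)) a (b x) (↑(Z₀ x)) r l) := by
  induction l with
  | zero =>
    have h0 : BLs B (fun (_ : Str ca) (_ : X) => (∅ : Set ℕ)) :=
      BL.const (B := B) (X := X × ℕ) False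
    exact BLs_Az h hl hV h0 hZ r
  | succ l ih =>
    have h1 : BL B (fun M (q : X × ℕ) => ∃ z : ℕ,
        (z ∈ Ch (EM m M) (Jb m lam M (V M q.1)) a (b q.1) (↑(Z₀ q.1)) r l ∨
          ∃ x : ℕ, x ∈ Ch (EM m M) (Jb m lam M (V M q.1)) a (b q.1) (↑(Z₀ q.1)) r l ∧
            Ar' m lam V a b M q.1 x z) ∧
        q.2 ∈ Az (EM m M) (Jb m lam M (V M q.1)) (↑(Z₀ q.1)) r {z}) := by
      refine BL.ex (P := fun M (q : (X × ℕ) × ℕ) =>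
        (q.2 ∈ Ch (EM m M) (Jb m lam M (V M q.1.1)) a (b q.1.1) (↑(Z₀ q.1.1)) r l ∨
          ∃ x : ℕ, x ∈ Ch (EM m M) (Jb m lam M (V M q.1.1)) a (b q.1.1) (↑(Z₀ q.1.1)) r l ∧
            Ar' m lam V a b M q.1.1 x q.2) ∧
        q.1.2 ∈ Az (EM m M) (Jb m lam M (V M q.1.1)) (↑(Z₀ q.1.1)) r {q.2}) ?_
      have hx : Eqm (fun q : (X × ℕ) × ℕ => q.1.1) := Eqm.fst.comp Eqm.fst
      refine BL.and (BL.or ?_ ?_) ?_
      · exact BL.pull (Φ := fun M (q : X × ℕ) =>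
          q.2 ∈ Ch (EM m M) (Jb m lam M (V M q.1)) a (b q.1) (↑(Z₀ q.1)) r l) ih
          (g := fun q : (X × ℕ) × ℕ => (q.1.1, q.2)) (hx.pair Eqm.snd)
      · refine BL.ex (P := fun M (q : ((X × ℕ) × ℕ) × ℕ) =>
          q.2 ∈ Ch (EM m M) (Jb m lam M (V M q.1.1.1)) a (b q.1.1.1) (↑(Z₀ q.1.1.1)) r l ∧
            Ar' m lam V a b M q.1.1.1 q.2 q.1.2) ?_
        have hx' : Eqm (fun q : ((X × ℕ) × ℕ) × ℕ => q.1.1.1) := hx.comp Eqm.fst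
        refine BL.and ?_ ?_
        · exact BL.pull (Φ := fun M (q : X × ℕ) =>
            q.2 ∈ Ch (EM m M) (Jb m lam M (V M q.1)) a (b q.1) (↑(Z₀ q.1)) r l) ih
            (g := fun q : ((X × ℕ) × ℕ) × ℕ => (q.1.1.1, q.2)) (hx'.pair Eqm.snd)
        · exact BL.pull (Φ := fun M (q : X × ℕ × ℕ) => Ar' m lam V a b M q.1 q.2.1 q.2.2)
            (BL_Ar' h hl hV hb) (g := fun q : ((X × ℕ) × ℕ) × ℕ => (q.1.1.1, q.2, q.1.2))
            (hx'.pair (Eqm.snd.pair (Eqm.snd.comp Eqm.fst)))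
      · have hS : BLs B (fun (_ : Str ca) (q : X × ℕ) => ({q.2} : Set ℕ)) :=
          BL.eqv (B := B) (X := (X × ℕ) × ℕ) (h := fun q => q.2) (k := fun q => q.1.2) Eqm.snd
            (Eqm.snd.comp Eqm.fst)
        have h2 := BLs_Az (V := fun M (q : X × ℕ) => V M q.1) (Z₀ := fun q : X × ℕ => Z₀ q.1)
          h hl (BLs.pull hV Eqm.fst) hS (hZ.comp Eqm.fst) r
        exact BL.pull (Φ := fun M (p : (X × ℕ) × ℕ) =>
          p.2 ∈ Az (EM m M) (Jb m lam M (V M p.1.1)) (↑(Z₀ p.1.1)) r {p.1.2}) h2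
          (g := fun q : (X × ℕ) × ℕ => ((q.1.1, q.2), q.1.2))
          ((hx.pair Eqm.snd).pair (Eqm.snd.comp Eqm.fst))
    exact h1

end Pool.H5.WT
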