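import Pool.Agent.H5.W.T.Df
import Pool.Agent.H5.W.SmLev
import Pool.Agent.H5.W.Cov

/-!
# THEOREM W, (THREE): bounded sets are of bounded level (module BLJ)

`BL_kap`: `kap E A ≤ r` iff `kf E F A ≤ r` for all finite `F` (`kap` is a supremum, `iSup_le_iff`,
`Nat.cast_le`), iff for all finite `F`, `A'` with `∀ v, v ∈ A' ↔ v ∈ F ∧ v ∈ A` we have
`kf E F A' ≤ r` (`kf_congr` : `kf` depends only on the intersection with `F`): `BL.all` twice,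
`BL.imp`, `BL.iff`, `BL.mem`, `kf_bl` with `BL.pull` and `BL.comp`. See `CP_bl` in
`Pool/Agent/H17/W/Br.lean` for the pattern.

`BL_jb`: by `Nmd.mem` for `M ∈ B` the predicate is
`∃ j, ∃ y : XP, Φ j M y ⊆ V M x ∧ Sm lam M (Φ j M y) ∧ A M x ⊆ Φ j M y` (`BL_congr`, `BL.exJ`,
`BL.ex`, `BL.and`, `BL.sm`; inclusions are `∀ v : ℕ, v ∈ .. → v ∈ ..`, `BL.all`, `BL.imp`; the families
`fun M (q : X × XP) => Φ j M q.2` are pulled back, `BLs.pull`).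

`few_bdd`: `Few.cov` with `Y = XP`, `W j M (x, y) = Φ j M y`, and `Few.mono` (`Nmd.mem`).
-/

set_option autoImplicit false

namespace Pool.H5.WT

open Set Ordinal Pool.H62.VT Pool.H62.VS Pool.H5.W Pool.H22.RW Pool.H17.W

variable {B : Set (Str ca)} {θ κ₀ lam : Ordinal.{0}} {m K : ℕ} {JJ XP X : Type} [Prm XP] [Prm X]
  {Φ : JJ → Str ca → XP → Set ℕ} {V A : Str ca → X → Set ℕ}

theorem BL_kap (hA : BLs B A) (m r : ℕ) : BL B (fun M x => kap (EM m M) (A M x) ≤ (r : ℕ∞)) := by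
  classical
  have e : (fun (M : Str ca) (x : X) => kap (EM m M) (A M x) ≤ (r : ℕ∞)) = fun M x =>
      ∀ F : Finset ℕ, ∀ A' : Finset ℕ, (∀ v : ℕ, v ∈ A' ↔ (v ∈ F ∧ v ∈ A M x)) →
        kf (EM m M) F (A' : Set ℕ) ≤ r := by
    funext M x
    rw [eq_iff_iff, kap_le_iff]
    constructor
    · intro h F A' hA'
      have e1 : kf (EM m M) F (A' : Set ℕ) = kf (EM m M) F (A M x) := by
        refine kf_congr fun v hv => ?_
        rw [Finset.mem_coe, hA' v]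
        exact ⟨fun h => h.2, fun h => ⟨hv, h⟩⟩
      rw [e1]
      exact h F
    · intro h F
      have e1 : kf (EM m M) F ((F.filter (fun v => v ∈ A M x) : Finset ℕ) : Set ℕ) =
          kf (EM m M) F (A M x) := by
        refine kf_congr fun v hv => ?_
        rw [Finset.mem_coe, Finset.mem_filter]
        exact ⟨fun h => h.2, fun h => ⟨hv, h⟩⟩
      rw [← e1]
      exact h F _ fun v => Finset.mem_filter
  rw [e]
  refine BL.all (P := fun (M : Str ca) (q : X × Finset ℕ) => ∀ A' : Finset ℕ,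
    (∀ v : ℕ, v ∈ A' ↔ (v ∈ q.2 ∧ v ∈ A M q.1)) → kf (EM m M) q.2 (A' : Set ℕ) ≤ r) ?_
  refine BL.all (P := fun (M : Str ca) (q : (X × Finset ℕ) × Finset ℕ) =>
    (∀ v : ℕ, v ∈ q.2 ↔ (v ∈ q.1.2 ∧ v ∈ A M q.1.1)) → kf (EM m M) q.1.2 (q.2 : Set ℕ) ≤ r) ?_
  have hx : Eqm (fun q : ((X × Finset ℕ) × Finset ℕ) × ℕ => q.1.1.1) :=
    Eqm.fst.comp (Eqm.fst.comp Eqm.fst)
  have hF : Eqm (fun q : ((X × Finset ℕ) × Finset ℕ) × ℕ => q.1.1.2) :=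
    Eqm.snd.comp (Eqm.fst.comp Eqm.fst)
  have hA' : Eqm (fun q : ((X × Finset ℕ) × Finset ℕ) × ℕ => q.1.2) := Eqm.snd.comp Eqm.fst
  have hv : Eqm (fun q : ((X × Finset ℕ) × Finset ℕ) × ℕ => q.2) := Eqm.snd
  refine BL.imp (BL.all (P := fun (M : Str ca) (q : ((X × Finset ℕ) × Finset ℕ) × ℕ) =>
    (q.2 ∈ q.1.2 ↔ (q.2 ∈ q.1.1.2 ∧ q.2 ∈ A M q.1.1.1))) ?_) ?_
  · refine BL.iff (BL.mem hv hA') (BL.and (BL.mem hv hF) ?_)
    exact BL.pull (Φ := fun M (q : X × ℕ) => q.2 ∈ A M q.1) hA (hx.pair hv)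
  · have h1 := BL.pull (B := B) (Φ := fun (M : Str ca) (q : Finset ℕ × Finset ℕ) =>
      kf (EM m M) q.1 (q.2 : Set ℕ)) (kf_bl m B)
      (g := fun q : (X × Finset ℕ) × Finset ℕ => (q.1.2, q.2))
      ((Eqm.snd.comp Eqm.fst).pair Eqm.snd)
    exact h1.comp (fun k => k ≤ r)

theorem BLs_piece (h : Ctx B θ m K κ₀ Φ) (j : JJ) : BLs B (Φ j) := ⟨κ₀, h.lt, h.nmd.lv j⟩

private theorem BL_sb {Y : Type} [Prm Y] {E W : Str ca → Y → Set ℕ} (hE : BLs B E)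
    (hW : BLs B W) : BL B (fun M x => E M x ⊆ W M x) := by
  have h1 : BL B (fun M (x : Y) => ∀ v : ℕ, v ∈ E M x → v ∈ W M x) := by
    refine BL.all (P := fun M (q : Y × ℕ) => q.2 ∈ E M q.1 → q.2 ∈ W M q.1) ?_
    exact BL.imp hE hW
  exact h1

theorem BL_jb [Countable JJ] (h : Ctx B θ m K κ₀ Φ) (hl : lam < ω₁) (hV : BLs B V)
    (hA : BLs B A) : BL B (fun M x => Jb m lam M (V M x) (A M x)) := by
  have h1 : BL B (fun M (x : X) => ∃ j, ∃ y : XP, Φ j M y ⊆ V M x ∧ Sm lam M (Φ j M y) ∧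
      A M x ⊆ Φ j M y) := by
    refine BL.exJ fun j => BL.ex (P := fun M (q : X × XP) => Φ j M q.2 ⊆ V M q.1 ∧
      Sm lam M (Φ j M q.2) ∧ A M q.1 ⊆ Φ j M q.2) ?_
    have hp : BLs B (fun M (q : X × XP) => Φ j M q.2) := BLs.pull (BLs_piece h j) Eqm.snd
    have hV' : BLs B (fun M (q : X × XP) => V M q.1) := BLs.pull hV Eqm.fst
    have hA' : BLs B (fun M (q : X × XP) => A M q.1) := BLs.pull hA Eqm.fst
    exact BL.and (BL_sb hp hV') (BL.and (BL.sm hp hl) (BL_sb hA' hp))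
  refine BL_congr h1 fun M hM x => ?_
  rw [eq_iff_iff]
  constructor
  · rintro ⟨W, hW, h2, h3, h4⟩
    obtain ⟨j, y, rfl⟩ := (h.nmd.mem M hM W).1 hW
    exact ⟨j, y, h2, h3, h4⟩
  · rintro ⟨j, y, h2, h3, h4⟩
    exact ⟨Φ j M y, (h.nmd.mem M hM _).2 ⟨j, y, rfl⟩, h2, h3, h4⟩

theorem few_bdd [Countable JJ] (h : Ctx B θ m K κ₀ Φ) (hl : lam < ω₁) (hA : BLs B A) {Z : Type}
    {φ : Str ca → X → ℕ → Z} (hφ : BLl B φ) :
    Few B (fun M x => Jb m lam M (V M x) (A M x)) A φ := by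
  obtain ⟨κ, hκ, h1⟩ := Few.cov (Y := XP) (J := JJ) hA (W := fun j M (q : X × XP) => Φ j M q.2)
    (fun j => BLs.pull (BLs_piece h j) Eqm.snd) hφ hl
  refine ⟨κ, hκ, fun M hM M' hM' x f hQ hb => ?_⟩
  obtain ⟨W, hW, h2, h3, h4⟩ := hQ
  obtain ⟨j, y, rfl⟩ := (h.nmd.mem M hM W).1 hW
  exact h1 M hM M' hM' x f ⟨j, y, h4, h3⟩ hb

end Pool.H5.WT
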