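import Pool.Agent.H5.W.T.Blj

/-!
# THEOREM W, (THREE): labels and arrows are of bounded level (module BLL)

`BL_em`: `EM m M i u v` is `1` or `0` according to an atomic fact (`BL.atom`, `BL.comp`; cases on the
Boolean of `i`). `BL_pv`: a finite sum over `k` of constants times entries of the matrix
(`BL.pi` over `k`, then `BL.comp`; the points `b k` by `eqm_apply`). `BL_cf`: `BL.exJ` over the
functions `g : Fin n → ZMod 2` (a finite type), `BL.and` with a constant, and `BL_jb` for the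
parameter type `X × ℕ` (`(x, u)`), the sets `{y | E (a k) u y ≠ pv .. y}` form a family which is `BLs`
(`BL_em`, `BL_pv`, `BL.eq`, `BL.not`), `V` pulled back along `Eqm.fst`; then `BL.comp` for the
`if .. then 1 else 0`. `BLl_Lb'`: `BL.pi` over `k`, `BL.comp2 Prod.mk`. `BL_Ar'`: `BL.exJ` over `i`,
`BL.eq`, `BL.not`, and `BL.comp2` of the two labels with `Fz`.
-/

set_option autoImplicit false

namespace Pool.H5.WT

open Set Ordinal Pool.H62.VT Pool.H62.VS Pool.H5.W Pool.H22.RW Pool.H17.W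

variable {B : Set (Str ca)} {θ κ₀ lam : Ordinal.{0}} {m K n : ℕ} {JJ XP X : Type} [Prm XP] [Prm X]
  {Φ : JJ → Str ca → XP → Set ℕ} {V : Str ca → X → Set ℕ} {a : Fin n → Ix m}
  {b : X → Fin n → ℕ}

theorem BL_em (m : ℕ) (i : Ix m) {h k : X → ℕ} (hh : Eqm h) (hk : Eqm k) :
    BL B (fun M x => EM m M i (h x) (k x)) := by
  rcases i with ⟨i, c⟩
  cases c
  · exact (BL.atom (B := B) (i : ℕ) hh hk).comp (fun c => if c = true then (1 : ZMod 2) else 0)
  · exact (BL.atom (B := B) (i : ℕ) hk hh).comp (fun c => if c = true then (1 : ZMod 2) else 0)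

theorem BL_pv (hb : Eqm b) (i : Ix m) (g : Fin n → ZMod 2) :
    BL B (fun M (q : X × ℕ) => pv (EM m M) a (b q.1) i g q.2) := by
  have h1 : ∀ k : Fin n, BL B (fun M (q : X × ℕ) => EM m M i (b q.1 k) q.2) := fun k =>
    BL_em m i ((eqm_apply hb k).comp Eqm.fst) Eqm.snd
  exact (BL.pi h1).comp (fun e => ∑ k, if a k = i then g k * e k else 0)

theorem BL_cf [Countable JJ] (h : Ctx B θ m K κ₀ Φ) (hl : lam < ω₁) (hV : BLs B V) (hb : Eqm b)
    (k : Fin n) : BL B (fun M (q : X × ℕ) =>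
      cf (EM m M) (Jb m lam M (V M q.1)) a (b q.1) q.2 k) := by
  classical
  have h1 : ∀ g : Fin n → ZMod 2, BL B (fun M (q : X × ℕ) => g k = 1 ∧
      Jb m lam M (V M q.1) {y | EM m M (a k) q.2 y ≠ pv (EM m M) a (b q.1) (a k) g y}) := by
    intro g
    refine BL.and (BL.const _) (BL_jb (V := fun M (q : X × ℕ) => V M q.1)
      (A := fun M (q : X × ℕ) =>
        {y | EM m M (a k) q.2 y ≠ pv (EM m M) a (b q.1) (a k) g y}) h hl (hV.pull Eqm.fst) ?_)
    exact (BL.eq (BL_em m (a k) (Eqm.snd.comp Eqm.fst) Eqm.snd)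
      ((BL_pv (a := a) hb (a k) g).pull ((Eqm.fst.comp Eqm.fst).pair Eqm.snd))).not
  refine BL_congr ((BL.exJ h1).comp (fun p => if p then (1 : ZMod 2) else 0)) fun M _ q => ?_
  unfold cf
  congr

theorem BLl_Lb' [Countable JJ] (h : Ctx B θ m K κ₀ Φ) (hl : lam < ω₁) (hV : BLs B V)
    (hb : Eqm b) : BLl B (Lb' m lam V a b) := by
  have h1 : ∀ k : Fin n, BL B (fun M (q : X × ℕ) =>
      (cf (EM m M) (Jb m lam M (V M q.1)) a (b q.1) q.2 k, EM m M (a k) (b q.1 k) q.2)) := fun k =>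
    (BL_cf h hl hV hb k).comp2 (BL_em m (a k) ((eqm_apply hb k).comp Eqm.fst) Eqm.snd) Prod.mk
  exact BL.pi h1

theorem BL_Ar' [Countable JJ] (h : Ctx B θ m K κ₀ Φ) (hl : lam < ω₁) (hV : BLs B V) (hb : Eqm b) :
    BL B (fun M (q : X × ℕ × ℕ) => Ar' m lam V a b M q.1 q.2.1 q.2.2) := by
  have h1 := BLl_Lb' (a := a) h hl hV hb
  have hx : Eqm (fun q : X × ℕ × ℕ => (q.1, q.2.1)) := Eqm.fst.pair (Eqm.fst.comp Eqm.snd)
  have hy : Eqm (fun q : X × ℕ × ℕ => (q.1, q.2.2)) := Eqm.fst.pair (Eqm.snd.comp Eqm.snd)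
  have h2 : BL B (fun M (q : X × ℕ × ℕ) => Lb' m lam V a b M q.1 q.2.1) :=
    BL.pull (Φ := fun M (q : X × ℕ) => Lb' m lam V a b M q.1 q.2) h1 hx
  have h3 : BL B (fun M (q : X × ℕ × ℕ) => Lb' m lam V a b M q.1 q.2.2) :=
    BL.pull (Φ := fun M (q : X × ℕ) => Lb' m lam V a b M q.1 q.2) h1 hy
  refine BL.exJ (P := fun (i : Ix m) (M : Str ca) (q : X × ℕ × ℕ) => EM m M i q.2.1 q.2.2 ≠
    Fz a i (Lb' m lam V a b M q.1 q.2.1) (Lb' m lam V a b M q.1 q.2.2)) fun i => ?_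
  exact (BL.eq (BL_em m i (Eqm.fst.comp Eqm.snd) (Eqm.snd.comp Eqm.snd))
    (h2.comp2 h3 (Fz a i))).not

end Pool.H5.WT
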