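import Pool.Agent.H5.W.T.Df
import Pool.Agent.H22.RW.GermB

/-!
# THEOREM W, (THREE): the list form of the germs (module COE)

No back and forth, no classes of structures: only `Df.lean` (the generic definitions) and
`H22/RW/GermA.lean`, `GermB.lean`.

`exists_dat`: take `n = ∑ i, (bb i).card = Fintype.card ((i : ι) × bb i)` and an enumeration of the
sigma type (`Fintype.equivFin`). `card_bs`: `Finset.card_image_of_injOn` and
`Finset.card_eq_sum_card_fiberwise`. `pv_eq`: by injectivity a function `g` on `Fin n` gives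
a function on the points of `bs a b i` and `pv E a b i g y = ext (E i) (bs a b i) f y` if
`f (b k) = g k` for `a k = i` (`Finset.sum_image`, `Finset.sum_filter`).
`cf_eq`: if `g k = 1` and `J {y | E (a k) x y ≠ pv ..}` then with the corresponding `f` the value
`coef .. (b k) = f (b k) = g k = 1` by `coef_eq`. Conversely if `coef .. (b k) = 1` take
`g l = coef (E (a k)) J (bs a b (a k)) x (b l)` and `fg_bdd`. The values are in `ZMod 2`.
`fz_eq`: by `cf_eq` and `pv_eq`. `av_iff`: by `fz_eq`.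
-/

set_option autoImplicit false

namespace Pool.H5.WT

open Set Pool.H22.RW

variable {ι : Type} [Fintype ι] [DecidableEq ι] {n : ℕ} {E : ι → ℕ → ℕ → ZMod 2}
  {J : Set ℕ → Prop} {a : Fin n → ι} {b : Fin n → ℕ} {V : Set ℕ} {x y : ℕ}

theorem exists_dat (bb : ι → Finset ℕ) : ∃ (n : ℕ) (a : Fin n → ι) (b : Fin n → ℕ),
    (∀ k l, a k = a l → b k = b l → k = l) ∧ bs a b = bb := by
  classical
  let e : ((i : ι) × {v : ℕ // v ∈ bb i}) ≃ Fin (Fintype.card ((i : ι) × {v : ℕ // v ∈ bb i})) :=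
    Fintype.equivFin _
  have key : ∀ s t : (i : ι) × {v : ℕ // v ∈ bb i}, s.1 = t.1 → (s.2 : ℕ) = (t.2 : ℕ) → s = t := by
    rintro ⟨i, v, hv⟩ ⟨j, w, hw⟩ h1 h2
    dsimp only at h1 h2
    subst h1
    subst h2
    rfl
  refine ⟨_, fun k => (e.symm k).1, fun k => ((e.symm k).2 : ℕ), ?_, ?_⟩
  · intro k l h1 h2
    exact e.symm.injective (key _ _ h1 h2)
  · funext i
    ext v
    unfold bs
    rw [Finset.mem_image]
    constructor
    · rintro ⟨k, hk, rfl⟩
      rw [Finset.mem_filter] at hk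
      have h1 : (e.symm k).1 = i := hk.2
      have h2 : ((e.symm k).2 : ℕ) ∈ bb (e.symm k).1 := (e.symm k).2.2
      exact h1 ▸ h2
    · intro hv
      refine ⟨e ⟨i, v, hv⟩, Finset.mem_filter.2 ⟨Finset.mem_univ _, ?_⟩, ?_⟩
      · show (e.symm (e ⟨i, v, hv⟩)).1 = i
        rw [Equiv.symm_apply_apply]
      · show ((e.symm (e ⟨i, v, hv⟩)).2 : ℕ) = v
        rw [Equiv.symm_apply_apply]

omit [Fintype ι] in
private theorem coe_inj (hi : ∀ k l, a k = a l → b k = b l → k = l) (i : ι) :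
    Set.InjOn b ↑(Finset.univ.filter fun k => a k = i) := by
  intro k hk l hl h
  rw [Finset.mem_coe, Finset.mem_filter] at hk hl
  exact hi k l (hk.2.trans hl.2.symm) h

theorem card_bs (hi : ∀ k l, a k = a l → b k = b l → k = l) : ∑ i, (bs a b i).card = n := by
  have h1 : ∀ i, (bs a b i).card = (Finset.univ.filter fun k => a k = i).card := fun i =>
    Finset.card_image_of_injOn (coe_inj hi i)
  rw [Finset.sum_congr rfl fun i _ => h1 i]
  have h2 := Finset.card_eq_sum_card_fiberwise (f := a) (s := Finset.univ) (t := Finset.univ)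
    (fun k _ => Finset.mem_coe.2 (Finset.mem_univ _))
  rw [Finset.card_univ, Fintype.card_fin] at h2
  exact h2.symm

omit [Fintype ι] in
private theorem coe_pv (hi : ∀ k l, a k = a l → b k = b l → k = l) (i : ι) (g : Fin n → ZMod 2)
    (f : ℕ → ZMod 2) (hf : ∀ k, a k = i → f (b k) = g k) (y : ℕ) :
    pv E a b i g y = ext (E i) (bs a b i) f y := by
  unfold pv Pool.H22.RW.ext bs
  rw [Finset.sum_image (coe_inj hi i), Finset.sum_filter]
  refine Finset.sum_congr rfl fun k _ => ?_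
  by_cases hk : a k = i
  · rw [if_pos hk, if_pos hk, hf k hk]
  · rw [if_neg hk, if_neg hk]

theorem pv_eq (hi : ∀ k l, a k = a l → b k = b l → k = l) (i : ι) (g : Fin n → ZMod 2)
    (f : ℕ → ZMod 2) (hf : ∀ k, a k = i → f (b k) = g k) (y : ℕ) :
    pv E a b i g y = ext (E i) (bs a b i) f y := coe_pv hi i g f hf y

omit [Fintype ι] [DecidableEq ι] in
private theorem coe_fun (hi : ∀ k l, a k = a l → b k = b l → k = l) (i : ι) (g : Fin n → ZMod 2) :
    ∃ f : ℕ → ZMod 2, ∀ k, a k = i → f (b k) = g k := by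
  classical
  refine ⟨fun v => if h : ∃ k, a k = i ∧ b k = v then g h.choose else 0, fun k hk => ?_⟩
  have h : ∃ l, a l = i ∧ b l = b k := ⟨k, hk, rfl⟩
  dsimp only
  rw [dif_pos h]
  have h1 := h.choose_spec
  rw [hi h.choose k (h1.1.trans hk.symm) h1.2]

theorem cf_eq (hi : ∀ k l, a k = a l → b k = b l → k = l) (hJ : OneP E V J)
    (hb : ∀ i, GB (E i) V J (bs a b i)) (hx : x ∈ V) (k : Fin n) :
    cf E J a b x k = coef (E (a k)) J (bs a b (a k)) x (b k) := by
  have hmem : b k ∈ bs a b (a k) := by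
    unfold bs
    exact Finset.mem_image.2 ⟨k, Finset.mem_filter.2 ⟨Finset.mem_univ _, rfl⟩, rfl⟩
  have h01 : ∀ c : ZMod 2, c ≠ 1 → c = 0 := by decide
  unfold cf
  by_cases hc : coef (E (a k)) J (bs a b (a k)) x (b k) = 1
  · rw [if_pos, hc]
    refine ⟨fun l => coef (E (a k)) J (bs a b (a k)) x (b l), hc, ?_⟩
    have h1 := fg_bdd hJ (hb (a k)) hx
    refine hJ.mono _ _ h1 fun y hy => ?_
    have h2 := coe_pv (E := E) hi (a k) (fun l => coef (E (a k)) J (bs a b (a k)) x (b l))
      (coef (E (a k)) J (bs a b (a k)) x) (fun l _ => rfl) y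
    have h3 : E (a k) x y ≠ pv E a b (a k) (fun l => coef (E (a k)) J (bs a b (a k)) x (b l)) y := hy
    rw [h2] at h3
    exact h3
  · rw [if_neg, h01 _ hc]
    rintro ⟨g, hg, hg1⟩
    obtain ⟨f, hf⟩ := coe_fun hi (a k) g
    refine hc ?_
    have h1 : J {y | E (a k) x y ≠ ext (E (a k)) (bs a b (a k)) f y} := by
      refine hJ.mono _ _ hg1 fun y hy => ?_
      have h3 : E (a k) x y ≠ ext (E (a k)) (bs a b (a k)) f y := hy
      rw [← coe_pv (E := E) hi (a k) g f hf y] at h3
      exact h3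
    rw [← coef_eq hJ (hb (a k)) hx h1 (b k) hmem, hf k rfl, hg]

theorem fz_eq (hi : ∀ k l, a k = a l → b k = b l → k = l) (hJ : OneP E V J)
    (hb : ∀ i, GB (E i) V J (bs a b i)) (hx : x ∈ V) (i : ι) :
    Fz a i (Lc E J a b x) (Lc E J a b y) = Fg (E i) J (bs a b i) x y := by
  have h1 := coe_pv (E := E) hi i (cf E J a b x) (coef (E i) J (bs a b i) x) (fun k hk => by
    subst hk
    exact (cf_eq hi hJ hb hx k).symm) y
  unfold Fg
  rw [← h1]
  unfold Fz pv
  refine Finset.sum_congr rfl fun k _ => ?_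
  by_cases hk : a k = i
  · rw [if_pos hk, if_pos hk]
    subst hk
    rfl
  · rw [if_neg hk, if_neg hk]

theorem av_iff (hi : ∀ k l, a k = a l → b k = b l → k = l) (hJ : OneP E V J)
    (hb : ∀ i, GB (E i) V J (bs a b i)) (hx : x ∈ V) :
    Av E J a b x y ↔ Ar E J (bs a b) x y := by
  unfold Av Ar
  exact exists_congr fun i => by rw [fz_eq hi hJ hb hx i]

end Pool.H5.WT
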