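import Pool.Agent.H27.SW.Fin
import Pool.Agent.H5.W.Ds

/-!
# THEOREM W, chapter D3: the interface
-/

set_option autoImplicit false

namespace Pool.H5.WT

open Set Ordinal Pool.H62.VT Pool.H62.VS Pool.H5.W Pool.H27.SW

/-- Directed sums: if the closures of the finite sets have countably many types then the whole sets
have countably many types. -/
theorem ds_tin {B : Set (Str ca)} {θ : Ordinal.{0}} (hS : Std B θ) {X : Type} [Prm X]
    {Q : Str ca → X → Prop} (hQ : BL B Q) {S : Str ca → X → Set ℕ} (hSb : BLs B S)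
    {l : Str ca → X → ℕ → Set ℕ} (hl : BLl B l) (G : Df)
    (hDS : ∀ M ∈ B, ∀ x, Q M x → DS G (ex M (l M x)) (S M x))
    {C : Set (Str ca × Set ℕ)} (hC : C.Countable)
    (hcl : ∀ M ∈ B, ∀ x, Q M x → ∀ F : Finset ℕ,
      TIn C (ex M (l M x)) (cl G (ex M (l M x)) (S M x) ↑F)) :
    ∃ C' : Set (Str ca × Set ℕ), C'.Countable ∧ ∀ M ∈ B, ∀ x, Q M x →
      TIn C' (ex M (l M x)) (S M x) :=
  d3 (G := G) hS hQ hSb hl hC hDS hcl

end Pool.H5.WT
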