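import Pool.Agent.H17.W.Br
import Pool.Agent.H22.RW.TrB
import Pool.Agent.H63.BW.Jf
import Pool.Agent.H5.W.Sm

/-!
# THEOREM W, the one-point case (THREE): definitions (module DF)

Data of a one-point set: the critical set `Z₀`, the critical rank `r`, and one list `b` of `n` points
with types `a k` (`a k = i`: the point `b k` belongs to the basis of the germs of the matrix `i`).
The labels `Lc` (coordinates of the germ; relations from the basis) have values in the finite type
`Zl n`; `Av` are the arrows of the module GERMB expressed by labels.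
-/

set_option autoImplicit false

namespace Pool.H5.WT

open Set Ordinal Pool.H62.VT Pool.H62.VS Pool.H5.W Pool.H22.RW Pool.H17.W

instance prmPi {ι X : Type} [Fintype ι] [Prm X] : Prm (ι → X) where
  supp x := ⋃ i, supp (x i)
  map f x := fun i => map f (x i)
  fin x := Set.finite_iUnion fun i => Prm.fin (x i)
  cnt := by
    classical
    infer_instance
  congr f g x h := funext fun i => Prm.congr f g (x i) fun v hv => h v (mem_iUnion.2 ⟨i, hv⟩)
  comp f g x := funext fun i => Prm.comp f g (x i)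
  id x := funext fun i => Prm.id (x i)
  supp_map f x := by
    simp only [Prm.supp_map, image_iUnion]

theorem eqm_apply {ι X Y : Type} [Fintype ι] [Prm X] [Prm Y] {b : X → ι → Y} (hb : Eqm b) (i : ι) :
    Eqm (fun x => b x i) :=
  ⟨fun x => (subset_iUnion (fun i => supp (b x i)) i).trans (hb.supp x), fun x f hf => by
    rw [hb.map x f hf]; rfl⟩

/-- invariants which agree on `B` -/
theorem BL_congr {a : ℕ → ℕ} {B : Set (Str a)} {X : Type} [Prm X] {Z : Type*}
    {Φ Ψ : Str a → X → Z} (h : BL B Φ) (he : ∀ M ∈ B, ∀ x, Ψ M x = Φ M x) : BL B Ψ := by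
  obtain ⟨κ, hκ, h1⟩ := h
  refine ⟨κ, hκ, fun M hM M' hM' x f hb => ?_⟩
  rw [he M hM, he M' hM']
  exact h1 M hM M' hM' x f hb

/-- labels with `n` coordinates -/
abbrev Zl (n : ℕ) : Type := Fin n → ZMod 2 × ZMod 2

section generic

variable {ι : Type} [DecidableEq ι] {n : ℕ} (E : ι → ℕ → ℕ → ZMod 2) (J : Set ℕ → Prop)
  (a : Fin n → ι) (b : Fin n → ℕ)

/-- the basis for the matrix `i` -/
def bs (i : ι) : Finset ℕ := (Finset.univ.filter fun k => a k = i).image b

/-- the value at `y` of the combination of the rows of the basis for `i` with coefficients `g` -/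
def pv (i : ι) (g : Fin n → ZMod 2) (y : ℕ) : ZMod 2 :=
  ∑ k, if a k = i then g k * E i (b k) y else 0

open Classical in
/-- the coordinates of the germ of `x` -/
noncomputable def cf (x : ℕ) : Fin n → ZMod 2 := fun k =>
  if ∃ g : Fin n → ZMod 2, g k = 1 ∧ J {y | E (a k) x y ≠ pv E a b (a k) g y} then 1 else 0

/-- the label of `x` -/
noncomputable def Lc (x : ℕ) : Zl n := fun k => (cf E J a b x k, E (a k) (b k) x)

/-- the predicted value of the matrix `i` for elements with labels `u`, `v` -/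
def Fz (i : ι) (u v : Zl n) : ZMod 2 := ∑ k, if a k = i then (u k).1 * (v k).2 else 0

/-- arrows -/
def Av (x y : ℕ) : Prop := ∃ i, E i x y ≠ Fz a i (Lc E J a b x) (Lc E J a b y)

/-- commuting labels -/
def Cmm (τ : ι → ι) (u v : Zl n) : Prop := ∀ i, Fz a i u v = Fz a (τ i) v u

end generic

section generic2

variable {ι : Type} [Fintype ι] [DecidableEq ι] {n : ℕ} (E : ι → ℕ → ℕ → ZMod 2)
  (J : Set ℕ → Prop) (a : Fin n → ι) (b : Fin n → ℕ)

/-- the least member of the lattice containing `Z`, with members which are pieces -/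
def Az (Z₀ : Set ℕ) (r : ℕ) (Z : Set ℕ) : Set ℕ :=
  {v | ∀ A, Pc E A → Lat E J Z₀ r A → Z ⊆ A → v ∈ A}

/-- the canonical chain -/
noncomputable def Ch (Z₀ : Set ℕ) (r : ℕ) : ℕ → Set ℕ
  | 0 => Az E J Z₀ r ∅
  | l + 1 => {v | ∃ z, (z ∈ Ch Z₀ r l ∨ ∃ x ∈ Ch Z₀ r l, Av E J a b x z) ∧
      v ∈ Az E J Z₀ r {z}}

/-- good data for `V` -/
structure Gd (V : Set ℕ) (Z₀ : Set ℕ) (r : ℕ) : Prop where
  one : OneP E V J
  crit : Crit E V J Z₀ r
  gb : ∀ i, GB (E i) V J (bs a b i)
  inj : ∀ k l, a k = a l → b k = b l → k = l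

/-- good data in the case without loss, with the closed bounded set `D` and the parts `Q` -/
structure Gp (τ : ι → ι) (V : Set ℕ) (Z₀ : Set ℕ) (r : ℕ) (D : Set ℕ) (Q : Set (Set (Zl n))) :
    Prop where
  gd : Gd E J a b V Z₀ r
  tr : Tr V J (Av E J a b) (Lc E J a b) (Cmm a τ)
  bdd : J D
  cls : Cls (Av E J a b) D
  prt : Parts V J (Av E J a b) (Lc E J a b) Q D

/-- the elements of `V` outside `D` in no part -/
def Rst (V : Set ℕ) (D : Set ℕ) (Q : Set (Set (Zl n))) : Set ℕ :=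
  {x | x ∈ V ∧ x ∉ D ∧ ∀ q ∈ Q, x ∉ prt V (Av E J a b) (Lc E J a b) D q}

end generic2

/-- bounded subsets of `V`: contained in a small piece inside `V` -/
def Jb (m : ℕ) (lam : Ordinal.{0}) (M : Str ca) (V A : Set ℕ) : Prop :=
  ∃ W, Pc (EM m M) W ∧ W ⊆ V ∧ Sm lam M W ∧ A ⊆ W

/-- the class of structures and the names of the pieces (`K` is not used) -/
structure Ctx (B : Set (Str ca)) (θ : Ordinal.{0}) (m K : ℕ) (κ₀ : Ordinal.{0}) {JJ XP : Type}
    [Prm XP] (Φ : JJ → Str ca → XP → Set ℕ) : Prop where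
  std : Std B θ
  un : ∀ M ∈ B, Un m M
  nmd : Pool.H63.BW.Nmd B (fun M => {A | Pc (EM m M) A}) κ₀ Φ
  lt : κ₀ < ω₁

/-- the labels as a family -/
noncomputable def Lb' (m : ℕ) (lam : Ordinal.{0}) {X : Type} {n : ℕ} (V : Str ca → X → Set ℕ)
    (a : Fin n → Ix m) (b : X → Fin n → ℕ) (M : Str ca) (x : X) : ℕ → Zl n :=
  Lc (EM m M) (Jb m lam M (V M x)) a (b x)

/-- the arrows as a family -/
def Ar' (m : ℕ) (lam : Ordinal.{0}) {X : Type} {n : ℕ} (V : Str ca → X → Set ℕ)
    (a : Fin n → Ix m) (b : X → Fin n → ℕ) (M : Str ca) (x : X) : ℕ → ℕ → Prop :=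
  Av (EM m M) (Jb m lam M (V M x)) a (b x)

variable {B : Set (Str ca)} {X : Type} [Prm X] {Z : Type} {E : Str ca → X → Set ℕ}
  {φ : Str ca → X → ℕ → Z} {Q Q' : Str ca → X → Prop}

theorem few_drop (h : Few B Q E φ) : Few B Q E (fun _ _ _ => ()) := by
  obtain ⟨κ, hκ, h1⟩ := h
  refine ⟨κ, hκ, fun M hM M' hM' x f hQ hb => ?_⟩
  obtain ⟨g, hg, -⟩ := h1 M hM M' hM' x f hQ hb
  exact ⟨g, hg, fun _ _ => rfl⟩

theorem few_or (h : Few B Q E φ) (h' : Few B Q' E φ) : Few B (fun M x => Q M x ∨ Q' M x) E φ := by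
  obtain ⟨κ, hκ, h1⟩ := h
  obtain ⟨κ', hκ', h2⟩ := h'
  refine ⟨max κ κ', max_lt hκ hκ', fun M hM M' hM' x f hQ hb => ?_⟩
  rcases hQ with hQ | hQ
  · exact h1 M hM M' hM' x f hQ (hb.level (le_max_left _ _))
  · exact h2 M hM M' hM' x f hQ (hb.level (le_max_right _ _))

end Pool.H5.WT
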