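import Pool.Agent.H5.W.T.Df

/-!
# THEOREM W, (THREE): reachability is of bounded level (module RCH)

Only the definitions of `Df.lean` and the closure properties in `BL.lean`, `Ds.lean` are needed.

`BL_rch`: `Rch R u v` iff `∃ l : ℕ, P l u v` where `P 0 u v` is `u = v` and `P (l + 1) u v` is
`∃ w, P l u w ∧ R w v` (`Relation.ReflTransGen`, induction in both directions); every `P l` is of
bounded level by induction (`BL.eqv`, `BL.ex`, `BL.and`, `BL.pull`), then `BL.exJ`.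
`BLs_cla`, `BLs_prt`, `BLs_clo`: unfold the definitions (`Eq2`, `prt`), `BL.and`, `BL.ex`, `BL.pull`,
`BL.mem`; `φ M x y ∈ q` is `BL.comp`.
-/

set_option autoImplicit false

namespace Pool.H5.WT

open Set Ordinal Pool.H62.VT Pool.H62.VS Pool.H5.W Pool.H22.RW Pool.H17.W

variable {B : Set (Str ca)} {X : Type} [Prm X] {R : Str ca → X → ℕ → ℕ → Prop}
  {V D : Str ca → X → Set ℕ}

private def rchP (S : ℕ → ℕ → Prop) : ℕ → ℕ → ℕ → Prop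
  | 0, u, v => u = v
  | l + 1, u, v => ∃ w, rchP S l u w ∧ S w v

private theorem rch_iff (S : ℕ → ℕ → Prop) (u v : ℕ) : Rch S u v ↔ ∃ l, rchP S l u v := by
  constructor
  · intro h
    induction h with
    | refl => exact ⟨0, rfl⟩
    | tail _ hbc ih =>
      obtain ⟨l, hl⟩ := ih
      exact ⟨l + 1, _, hl, hbc⟩
  · rintro ⟨l, hl⟩
    induction l generalizing v with
    | zero =>
      have h0 : u = v := hl
      rw [h0]
    | succ l ih =>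
      obtain ⟨w, hw, hwv⟩ := hl
      exact Relation.ReflTransGen.tail (ih w hw) hwv

private theorem BL_rchP (hR : BL B (fun M (q : X × ℕ × ℕ) => R M q.1 q.2.1 q.2.2)) (l : ℕ) :
    BL B (fun M (q : X × ℕ × ℕ) => rchP (R M q.1) l q.2.1 q.2.2) := by
  induction l with
  | zero =>
    exact BL.eqv (h := fun q : X × ℕ × ℕ => q.2.1) (k := fun q : X × ℕ × ℕ => q.2.2)
      (Eqm.fst.comp Eqm.snd) (Eqm.snd.comp Eqm.snd)
  | succ l ih =>
    have h1 : BL B (fun M (q : (X × ℕ × ℕ) × ℕ) => rchP (R M q.1.1) l q.1.2.1 q.2) :=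
      BL.pull (Φ := fun M (q : X × ℕ × ℕ) => rchP (R M q.1) l q.2.1 q.2.2) ih
        (g := fun q : (X × ℕ × ℕ) × ℕ => (q.1.1, q.1.2.1, q.2))
        ((Eqm.fst.comp Eqm.fst).pair (((Eqm.fst.comp Eqm.snd).comp Eqm.fst).pair Eqm.snd))
    have h2 : BL B (fun M (q : (X × ℕ × ℕ) × ℕ) => R M q.1.1 q.2 q.1.2.2) :=
      BL.pull (Φ := fun M (q : X × ℕ × ℕ) => R M q.1 q.2.1 q.2.2) hR
        (g := fun q : (X × ℕ × ℕ) × ℕ => (q.1.1, q.2, q.1.2.2))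
        ((Eqm.fst.comp Eqm.fst).pair (Eqm.snd.pair ((Eqm.snd.comp Eqm.snd).comp Eqm.fst)))
    exact BL.ex (h1.and h2)

theorem BL_rch (hR : BL B (fun M (q : X × ℕ × ℕ) => R M q.1 q.2.1 q.2.2)) :
    BL B (fun M (q : X × ℕ × ℕ) => Rch (R M q.1) q.2.1 q.2.2) := by
  have h := BL.exJ (BL_rchP hR)
  have e : (fun (M : Str ca) (q : X × ℕ × ℕ) => Rch (R M q.1) q.2.1 q.2.2) =
      fun M q => ∃ l, rchP (R M q.1) l q.2.1 q.2.2 := by
    funext M q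
    exact propext (rch_iff _ _ _)
  rw [e]
  exact h

private theorem BL_eq2 (hR : BL B (fun M (q : X × ℕ × ℕ) => R M q.1 q.2.1 q.2.2)) :
    BL B (fun M (q : X × ℕ × ℕ) => Eq2 (R M q.1) q.2.1 q.2.2) := by
  have h1 := BL_rch hR
  have h2 : BL B (fun M (q : X × ℕ × ℕ) => Rch (R M q.1) q.2.2 q.2.1) :=
    BL.pull (Φ := fun M (q : X × ℕ × ℕ) => Rch (R M q.1) q.2.1 q.2.2) h1
      (g := fun q : X × ℕ × ℕ => (q.1, q.2.2, q.2.1))
      (Eqm.fst.pair ((Eqm.snd.comp Eqm.snd).pair (Eqm.fst.comp Eqm.snd)))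
  exact h1.and h2

theorem BLs_cla (hR : BL B (fun M (q : X × ℕ × ℕ) => R M q.1 q.2.1 q.2.2)) :
    BLs B (fun M (q : X × ℕ) => {y | Eq2 (R M q.1) q.2 y}) := by
  exact BL.pull (Φ := fun M (q : X × ℕ × ℕ) => Eq2 (R M q.1) q.2.1 q.2.2) (BL_eq2 hR)
    (g := fun q : (X × ℕ) × ℕ => (q.1.1, q.1.2, q.2))
    ((Eqm.fst.comp Eqm.fst).pair ((Eqm.snd.comp Eqm.fst).pair Eqm.snd))

theorem BLs_prt {L : Type} {φ : Str ca → X → ℕ → L} (hφ : BLl B φ)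
    (hR : BL B (fun M (q : X × ℕ × ℕ) => R M q.1 q.2.1 q.2.2)) (hV : BLs B V) (hD : BLs B D)
    (q : Set L) : BLs B (fun M x => prt (V M x) (R M x) (φ M x) (D M x) q) := by
  have h1 : BL B (fun M (p : (X × ℕ) × ℕ) => Eq2 (R M p.1.1) p.1.2 p.2) :=
    BL.pull (Φ := fun M (q : X × ℕ × ℕ) => Eq2 (R M q.1) q.2.1 q.2.2) (BL_eq2 hR)
      (g := fun q : (X × ℕ) × ℕ => (q.1.1, q.1.2, q.2))
      ((Eqm.fst.comp Eqm.fst).pair ((Eqm.snd.comp Eqm.fst).pair Eqm.snd))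
  have h2 : BL B (fun M (p : (X × ℕ) × ℕ) => φ M p.1.1 p.2 ∈ q) :=
    (BL.pull (Φ := fun M (p : X × ℕ) => φ M p.1 p.2) hφ
      (g := fun p : (X × ℕ) × ℕ => (p.1.1, p.2))
      ((Eqm.fst.comp Eqm.fst).pair Eqm.snd)).comp (fun z => z ∈ q)
  have h3 := BL.ex (h1.and h2)
  have h4 : BL B (fun M (p : X × ℕ) => p.2 ∉ D M p.1) := BL.not hD
  exact BL.and hV (BL.and h4 h3)

/-- closures of finite sets inside a set -/
theorem BLs_clo (hR : BL B (fun M (q : X × ℕ × ℕ) => R M q.1 q.2.1 q.2.2)) (hV : BLs B V) :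
    BLs B (fun M (q : X × Finset ℕ) =>
      {y | y ∈ V M q.1 ∧ ∃ z : ℕ, z ∈ q.2 ∧ z ∈ V M q.1 ∧ Rch (R M q.1) z y}) := by
  have h1 : BL B (fun M (p : ((X × Finset ℕ) × ℕ) × ℕ) => Rch (R M p.1.1.1) p.2 p.1.2) :=
    BL.pull (Φ := fun M (q : X × ℕ × ℕ) => Rch (R M q.1) q.2.1 q.2.2) (BL_rch hR)
      (g := fun p : ((X × Finset ℕ) × ℕ) × ℕ => (p.1.1.1, p.2, p.1.2))
      ((Eqm.fst.comp (Eqm.fst.comp Eqm.fst)).pair (Eqm.snd.pair (Eqm.snd.comp Eqm.fst)))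
  have h2 : BL B (fun M (p : ((X × Finset ℕ) × ℕ) × ℕ) => p.2 ∈ V M p.1.1.1) :=
    BL.pull (Φ := fun M (p : X × ℕ) => p.2 ∈ V M p.1) hV
      (g := fun p : ((X × Finset ℕ) × ℕ) × ℕ => (p.1.1.1, p.2))
      ((Eqm.fst.comp (Eqm.fst.comp Eqm.fst)).pair Eqm.snd)
  have h3 : BL B (fun (_ : Str ca) (p : ((X × Finset ℕ) × ℕ) × ℕ) => p.2 ∈ p.1.1.2) :=
    BL.mem (h := fun p : ((X × Finset ℕ) × ℕ) × ℕ => p.2)
      (k := fun p : ((X × Finset ℕ) × ℕ) × ℕ => p.1.1.2) Eqm.snd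
      (Eqm.snd.comp (Eqm.fst.comp Eqm.fst))
  have h4 := BL.ex (h3.and (h2.and h1))
  have h5 : BL B (fun M (p : (X × Finset ℕ) × ℕ) => p.2 ∈ V M p.1.1) :=
    BL.pull (Φ := fun M (p : X × ℕ) => p.2 ∈ V M p.1) hV
      (g := fun p : (X × Finset ℕ) × ℕ => (p.1.1, p.2))
      ((Eqm.fst.comp Eqm.fst).pair Eqm.snd)
  exact BL.and h5 h4

end Pool.H5.WT
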