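import Pool.Agent.H5.W.T.Gla
import Pool.Agent.H5.W.T.Bll
import Pool.Agent.H5.W.T.Rch
import Pool.Agent.H5.W.D2

/-!
# THEOREM W, (THREE): the isolated classes (module NLR)

`few_rest`: `Few.multi` with `E = Rst`, `C M (x, v) = {y | Eq2 (Ar' .. M x) v y}` (`BLs_cla`), the table
`Tb1` and `W j M ((x, v), y) = Φ j M y`. For good data and `v ∈ Rst`: the class of `v` is inside `V`
(`Tr.rchV`), outside `D` (`Cls.rch`), in no part (the property of the parts depends only on the class), so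
inside `Rst`. For `u`, `w ∈ Rst` in different classes there is no arrow from `u` to `w` (otherwise
`Parts.iso` gives the arrow back and they are in one class), so `tab_of_not_ar` (`u ≠ w`). The class of
`v` is bounded: contained in `{y | Rch .. v y}` (`Tr.rch_bdd`), so in a small piece (`Nmd.mem`).
-/

set_option autoImplicit false

namespace Pool.H5.WT

open Set Ordinal Pool.H62.VT Pool.H62.VS Pool.H5.W Pool.H22.RW Pool.H17.W

variable {B : Set (Str ca)} {θ κ₀ lam : Ordinal.{0}} {m K n : ℕ} {JJ XP X : Type} [Prm XP] [Prm X]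
  {Φ : JJ → Str ca → XP → Set ℕ} {V D : Str ca → X → Set ℕ} {a : Fin n → Ix m}
  {b : X → Fin n → ℕ} {Z₀ : X → Finset ℕ}

theorem BLs_rst [Countable JJ] (h : Ctx B θ m K κ₀ Φ) (hl : lam < ω₁) (hV : BLs B V)
    (hD : BLs B D) (hb : Eqm b) (Q : Set (Set (Zl n))) :
    BLs B (fun M x => Rst (EM m M) (Jb m lam M (V M x)) a (b x) (V M x) (D M x) Q) := by
  have hcu : Countable Q := by
    have : Finite (Set (Zl n)) := inferInstance
    infer_instance
  have hp : ∀ q : Q, BLs B (fun M x => prt (V M x) (Ar' m lam V a b M x) (Lb' m lam V a b M x)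
      (D M x) q.1) := fun q => BLs_prt (BLl_Lb' h hl hV hb) (BL_Ar' h hl hV hb) hV hD q.1
  have h1 : BL B (fun M (r : X × ℕ) => r.2 ∈ V M r.1 ∧ r.2 ∉ D M r.1 ∧
      ∀ q : Q, ¬ r.2 ∈ prt (V M r.1) (Ar' m lam V a b M r.1) (Lb' m lam V a b M r.1)
        (D M r.1) q.1) :=
    BL.and hV (BL.and (BL.not hD) (BL.allJ fun q => BL.not (hp q)))
  refine BL_congr h1 fun M _ r => ?_
  refine propext ⟨fun hr => ⟨hr.1, hr.2.1, fun q => hr.2.2 q.1 q.2⟩,
    fun hr => ⟨hr.1, hr.2.1, fun q hq => hr.2.2 ⟨q, hq⟩⟩⟩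

theorem few_rest [Countable JJ] (h : Ctx B θ m K κ₀ Φ) (hl : lam < ω₁) (hV : BLs B V)
    (hD : BLs B D) (hb : Eqm b) (r : ℕ) (Q : Set (Set (Zl n))) :
    Few B (fun M x => Gp (EM m M) (Jb m lam M (V M x)) a (b x) tau (V M x) (↑(Z₀ x)) r (D M x) Q)
      (fun M x => Rst (EM m M) (Jb m lam M (V M x)) a (b x) (V M x) (D M x) Q)
      (Lb' m lam V a b) := by
  have hA := BL_Ar' (a := a) h hl hV hb
  have hL := BLl_Lb' (a := a) h hl hV hb
  have hE := BLs_rst (a := a) h hl hV hD hb Q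
  have hC := BLs_cla hA
  have hW : ∀ j, BLs B (fun M (q : (X × ℕ) × XP) => Φ j M q.2) := by
    intro j
    have h1 : BL B (fun M (x : XP × ℕ) => x.2 ∈ Φ j M x.1) := ⟨κ₀, h.lt, h.nmd.lv j⟩
    exact BL.pull h1 ((Eqm.snd.comp Eqm.fst).pair Eqm.snd)
  refine Few.mono (Few.multi hE hC hW hL (Tb1 m a) hl) ?_
  intro M hM x hG
  have hTr := hG.tr
  have hdisj : ∀ v ∈ Rst (EM m M) (Jb m lam M (V M x)) a (b x) (V M x) (D M x) Q,
      ∀ y, Eq2 (Ar' m lam V a b M x) v y →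
        y ∈ Rst (EM m M) (Jb m lam M (V M x)) a (b x) (V M x) (D M x) Q := by
    intro v hv y hy
    refine ⟨hTr.rchV hv.1 hy.1, fun hyD => hv.2.1 (hG.cls.rch hyD hy.2), fun q hq hyq => ?_⟩
    obtain ⟨-, -, z, hz, hzq⟩ := hyq
    exact hv.2.2 q hq ⟨hv.1, hv.2.1, z, ⟨hy.1.trans hz.1, hz.2.trans hy.2⟩, hzq⟩
  refine ⟨fun v hv => ⟨⟨Relation.ReflTransGen.refl, Relation.ReflTransGen.refl⟩,
    fun y hy => hdisj v hv y hy, fun w hw => ?_⟩, fun u hu w hw hwu k => ?_, fun v hv => ?_⟩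
  · ext y
    exact ⟨fun hy => ⟨hw.1.trans hy.1, hy.2.trans hw.2⟩,
      fun hy => ⟨hw.2.trans hy.1, hy.2.trans hw.1⟩⟩
  · have hne : u ≠ w := by
      rintro rfl
      exact hwu ⟨Relation.ReflTransGen.refl, Relation.ReflTransGen.refl⟩
    have hno : ¬ Ar' m lam V a b M x u w := by
      intro huw
      have hwu' : Ar' m lam V a b M x w u :=
        (hG.prt.iso u hu.1 hu.2.1 hu.2.2 w hw.1 hw.2.1).1 huw
      exact hwu ⟨Relation.ReflTransGen.single huw, Relation.ReflTransGen.single hwu'⟩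
    exact (tab_of_not_ar (h.un M hM) hne hno k).1
  · obtain ⟨W, hWP, -, hWS, hWsub⟩ := hTr.rch_bdd hv.1
    obtain ⟨j, y, hjy⟩ := (h.nmd.mem M hM W).1 hWP
    refine ⟨j, y, ?_, ?_⟩
    · show _ ⊆ Φ j M y
      rw [hjy]
      exact fun z hz => hWsub hz.1
    · show Sm lam M (Φ j M y)
      rw [hjy]
      exact hWS

end Pool.H5.WT
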