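import Pool.Agent.H5.W.T.Nlp
import Pool.Agent.H5.W.T.Nlr

/-!
# THEOREM W, (THREE): the case without loss (module NLG)

For a finite set `s ⊆ Q` let `U s = (V ∩ D) ∪ Rst ∪ ⋃ q ∈ s, prt q`. Claim by `Finset.induction_on`:
`Few B Gp (U s) (Lb' ..)`. Start: `few_bdd` for `V ∩ D` (`Gp.bdd`, `OneP.mono` = the definition of `Jb`;
for good data `V ∩ D = D`), `few_rest`, `few_glue` : `D` is closed under arrows, so there is no arrow
from `V ∩ D` to the rest. Step: `few_glue` with `few_part`: no arrow from `U s` to `prt q`, `q ∉ s`: from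
`D`: closed; from the rest or from another part: by `Parts.arr` the start would be in `prt q`
(`R u w ∨ R w u` with `w ∈ prt q`), contradiction with the definition of `Rst`, resp. with
`Parts.disj`. Disjointness the same. Finally for `s = Q` (`Set.Finite.toFinset`; the type `Zl n` is
finite) `U Q = V` for all `(M, x)` (since `prt ⊆ V \ D` and `Rst` is the rest of `V \ D`). `BLs` of `U s`:
`BLs_rst`, `BLs_prt`, `BLs.union` in the induction. `few_drop`.
-/

set_option autoImplicit false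

namespace Pool.H5.WT

open Set Ordinal Pool.H62.VT Pool.H62.VS Pool.H5.W Pool.H22.RW Pool.H17.W

variable {B : Set (Str ca)} {θ κ₀ lam : Ordinal.{0}} {m K n : ℕ} {JJ XP X : Type} [Prm XP] [Prm X]
  {Φ : JJ → Str ca → XP → Set ℕ} {V D : Str ca → X → Set ℕ} {a : Fin n → Ix m}
  {b : X → Fin n → ℕ} {Z₀ : X → Finset ℕ}

private theorem noloss_aux [Countable JJ] (h : Ctx B θ m K κ₀ Φ) (hl : lam < ω₁) (hV : BLs B V)
    (hD : BLs B D) (hb : Eqm b) (r : ℕ) (Q : Set (Set (Zl n))) (s : Finset (Set (Zl n))) :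
    (∀ q ∈ s, q ∈ Q) → ∃ U : Str ca → X → Set ℕ,
      (∀ M x v, v ∈ U M x ↔ (v ∈ V M x ∧ v ∈ D M x) ∨
        v ∈ Rst (EM m M) (Jb m lam M (V M x)) a (b x) (V M x) (D M x) Q ∨
        ∃ q ∈ s, v ∈ prt (V M x) (Ar' m lam V a b M x) (Lb' m lam V a b M x) (D M x) q) ∧
      BLs B U ∧
      Few B (fun M x => Gp (EM m M) (Jb m lam M (V M x)) a (b x) tau (V M x) (↑(Z₀ x)) r (D M x) Q)
        U (Lb' m lam V a b) := by
  classical
  have hφ : BLl B (Lb' m lam V a b) := BLl_Lb' h hl hV hb
  have hR := BL_Ar' (a := a) h hl hV hb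
  induction s using Finset.induction_on with
  | empty =>
    intro _
    refine ⟨fun M x => (V M x ∩ D M x) ∪
      Rst (EM m M) (Jb m lam M (V M x)) a (b x) (V M x) (D M x) Q, fun M x v => ?_,
      BLs.union (BLs.inter hV hD) (BLs_rst h hl hV hD hb Q), ?_⟩
    · simp only [mem_union, mem_inter_iff, Finset.notMem_empty, false_and, exists_false, or_false]
    · refine Few.mono (few_glue h.un (BLs.inter hV hD) (BLs_rst h hl hV hD hb Q) hφ
        (few_bdd (V := V) h hl (BLs.inter hV hD) hφ) (few_rest (Z₀ := Z₀) h hl hV hD hb r Q)) ?_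
      intro M hM x hg
      refine ⟨?_, hg, ?_, ?_⟩
      · obtain ⟨W, h1, h2, h3, h4⟩ := hg.bdd
        exact ⟨W, h1, h2, h3, fun v hv => h4 hv.2⟩
      · exact Set.disjoint_left.2 fun v hv hv' => hv'.2.1 hv.2
      · intro u hu w hw ha
        exact hw.2.1 (hg.cls u hu.2 w ha)
  | insert q s hqs ih =>
    intro hs
    obtain ⟨U, hU, hUB, hUF⟩ := ih fun q' hq' => hs q' (Finset.mem_insert_of_mem hq')
    have hq : q ∈ Q := hs q (Finset.mem_insert_self q s)
    have hpB := BLs_prt hφ hR hV hD q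
    refine ⟨fun M x => U M x ∪
      prt (V M x) (Ar' m lam V a b M x) (Lb' m lam V a b M x) (D M x) q, fun M x v => ?_,
      BLs.union hUB hpB, ?_⟩
    · rw [mem_union, hU]
      constructor
      · rintro ((h1 | h1 | ⟨q', hq', h1⟩) | h1)
        · exact Or.inl h1
        · exact Or.inr (Or.inl h1)
        · exact Or.inr (Or.inr ⟨q', Finset.mem_insert_of_mem hq', h1⟩)
        · exact Or.inr (Or.inr ⟨q, Finset.mem_insert_self q s, h1⟩)
      · rintro (h1 | h1 | ⟨q', hq', h1⟩)
        · exact Or.inl (Or.inl h1)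
        · exact Or.inl (Or.inr (Or.inl h1))
        · rcases Finset.mem_insert.1 hq' with rfl | hq'
          · exact Or.inr h1
          · exact Or.inl (Or.inr (Or.inr ⟨q', hq', h1⟩))
    · refine Few.mono (few_glue h.un hUB hpB hφ hUF
        (few_part (Z₀ := Z₀) h hl hV hD hb r hq)) ?_
      intro M hM x hg
      have hdis : ∀ u ∈ U M x, u ∈ prt (V M x) (Ar' m lam V a b M x) (Lb' m lam V a b M x)
          (D M x) q → False := by
        intro u hu hu'
        rcases (hU M x u).1 hu with h1 | h1 | ⟨q', hq', h1⟩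
        · exact hu'.2.1 h1.2
        · exact h1.2.2 q hq hu'
        · have hne : q' ≠ q := fun e => hqs (e ▸ hq')
          exact Set.disjoint_left.1 (hg.prt.disj q' (hs q' (Finset.mem_insert_of_mem hq')) q hq hne)
            h1 hu'
      have hmem : ∀ u ∈ U M x, u ∉ D M x → u ∈ V M x := by
        intro u hu hn
        rcases (hU M x u).1 hu with h1 | h1 | ⟨q', hq', h1⟩
        · exact h1.1
        · exact h1.1
        · exact h1.1
      refine ⟨hg, hg, Set.disjoint_left.2 fun u hu hu' => hdis u hu hu', ?_⟩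
      intro u hu w hw ha
      have hnD : u ∉ D M x := fun hd => hw.2.1 (hg.cls u hd w ha)
      exact hdis u hu (hg.prt.arr q hq w hw u (hmem u hu hnD) hnD (Or.inr ha))

theorem few_noloss [Countable JJ] (h : Ctx B θ m K κ₀ Φ) (hl : lam < ω₁) (hV : BLs B V)
    (hD : BLs B D) (hb : Eqm b) (r : ℕ) (Q : Set (Set (Zl n))) :
    Few B (fun M x => Gp (EM m M) (Jb m lam M (V M x)) a (b x) tau (V M x) (↑(Z₀ x)) r (D M x) Q)
      V (fun _ _ _ => ()) := by
  classical
  have hfin : Q.Finite := Set.toFinite Q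
  obtain ⟨U, hU, -, hF⟩ := noloss_aux (Z₀ := Z₀) h hl hV hD hb r Q hfin.toFinset
    fun q hq => hfin.mem_toFinset.1 hq
  have e : U = V := by
    funext M x
    ext v
    rw [hU]
    constructor
    · rintro (h1 | h1 | ⟨q, -, h1⟩)
      · exact h1.1
      · exact h1.1
      · exact h1.1
    · intro hv
      by_cases hd : v ∈ D M x
      · exact Or.inl ⟨hv, hd⟩
      · by_cases hq : ∃ q ∈ Q, v ∈ prt (V M x) (Ar' m lam V a b M x) (Lb' m lam V a b M x) (D M x) q
        · obtain ⟨q, hq, h1⟩ := hq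
          exact Or.inr (Or.inr ⟨q, hfin.mem_toFinset.2 hq, h1⟩)
        · refine Or.inr (Or.inl ⟨hv, hd, fun q hq' h1 => hq ⟨q, hq', h1⟩⟩)
  rw [e] at hF
  exact few_drop hF

end Pool.H5.WT
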