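import Pool.Agent.H5.W.T.Rwi
import Pool.Agent.H5.W.SmSub
import Pool.Agent.H5.W.SmUni
import Pool.Agent.H5.W.SmEx

/-!
# THEOREM W, (THREE): one-point sets (module ONP)

Small pieces form an ideal. `Sm.sub` for the families `Φ j M q.1`, `Φ j' M q.2` over `XP × XP` gives
levels `κ (j, j')`; `Sm.union` the same; `κ₁` = a bound of the countably many levels
(`exists_bound`; pattern: `choose`). A piece is `Φ j M y` (`Nmd.mem`) and has finite names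
(`exists_nam`, `Pc.fin`, `symE`).

`pc_sub`: as said. `pc_union`: `A ∪ A' = A ∪ (A' \ A)`, `Pc.sdiff`, `pc_sub`, and `Sm.union` for
disjoint sets. `exists_onep`: the fields of `OneP`: `sub`, `mono`: clear; `union`: `Pc.union`,
`pc_union`; `sing`: `Pc.sing` (a finite set with finite names is small: `sm_finite`; a list of the
names: `Set.Finite.toFinset`, `Finset.toList`); `empty`: `Pc.empty`, `sm_finite`; `unb`: if `V ⊆ W ⊆ V`
then `Sm lam M V`; `fin`: `Pc.fin`; `one`: `Pc.lr`, and `Lr E V X Y ⊆ V` (from the theorems on `Lr` in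
`H22/RW`, e.g. `lr_mini` and `cand_self`) and the hypothesis; `enl`: the piece `W` itself.
-/

set_option autoImplicit false

namespace Pool.H5.WT

open Set Ordinal Pool.H62.VT Pool.H62.VS Pool.H5.W Pool.H22.RW Pool.H17.W

variable {B : Set (Str ca)} {θ κ₀ : Ordinal.{0}} {m K : ℕ} {JJ XP : Type} [Prm XP]
  {Φ : JJ → Str ca → XP → Set ℕ}

private theorem bls_phi (h : Ctx B θ m K κ₀ Φ) (j : JJ) : BLs B (Φ j) :=
  ⟨κ₀, h.lt, h.nmd.lv j⟩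

private theorem pc_nam (h : Ctx B θ m K κ₀ Φ) {M : Str ca} (hM : M ∈ B) {W : Set ℕ}
    (hW : Pc (EM m M) W) : ∃ T : Set ℕ, T.Finite ∧ Nam M W T :=
  exists_nam (h.un M hM) (hW.fin (symE m M))

/-- finite pieces are small -/
private theorem fin_sm (h : Ctx B θ m K κ₀ Φ) {M : Str ca} (hM : M ∈ B) {W : Set ℕ}
    (hW : Pc (EM m M) W) (hf : W.Finite) {lam : Ordinal.{0}} (hl : Pri lam) : Sm lam M W := by
  obtain ⟨T, hT, hN⟩ := pc_nam h hM hW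
  have ht : {y | y ∈ hT.toFinset.toList} = T := by
    ext y
    simp
  exact sm_finite (t := hT.toFinset.toList) hf (by rw [ht]; exact hN) hl

theorem pc_sub [Countable JJ] (h : Ctx B θ m K κ₀ Φ) :
    ∃ κ₁ : Ordinal.{0}, κ₁ < ω₁ ∧ ∀ lam, Pri lam → κ₁ < lam → ∀ M ∈ B, ∀ V W, Pc (EM m M) V →
      Pc (EM m M) W → W ⊆ V → Sm lam M V → Sm lam M W := by
  have h1 : ∀ p : JJ × JJ, ∃ κ : Ordinal.{0}, κ < ω₁ ∧ ∀ lam, Pri lam → κ < lam → ∀ M ∈ B,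
      ∀ x : XP × XP, Φ p.2 M x.2 ⊆ Φ p.1 M x.1 → Sm lam M (Φ p.1 M x.1) →
        (∃ T : Set ℕ, T.Finite ∧ Nam M (Φ p.2 M x.2) T) → Sm lam M (Φ p.2 M x.2) := fun p =>
    Sm.sub h.std (V := fun M (q : XP × XP) => Φ p.1 M q.1) (W := fun M q => Φ p.2 M q.2)
      (BLs.pull (bls_phi h p.1) Eqm.fst) (BLs.pull (bls_phi h p.2) Eqm.snd)
  choose k hk hs using h1
  obtain ⟨κ, hκ, hle⟩ := exists_bound k hk
  refine ⟨κ, hκ, fun lam hl hlt M hM V W hV hW hWV hsV => ?_⟩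
  have hn := pc_nam h hM hW
  obtain ⟨j, x, rfl⟩ := (h.nmd.mem M hM V).1 hV
  obtain ⟨j', x', rfl⟩ := (h.nmd.mem M hM W).1 hW
  exact hs (j, j') lam hl ((hle _).trans_lt hlt) M hM (x, x') hWV hsV hn

theorem pc_union [Countable JJ] (h : Ctx B θ m K κ₀ Φ) :
    ∃ κ₁ : Ordinal.{0}, κ₁ < ω₁ ∧ ∀ lam, Pri lam → κ₁ < lam → ∀ M ∈ B, ∀ V W, Pc (EM m M) V →
      Pc (EM m M) W → Sm lam M V → Sm lam M W → Sm lam M (V ∪ W) := by
  have h1 : ∀ p : JJ × JJ, ∃ κ : Ordinal.{0}, κ < ω₁ ∧ ∀ lam, Pri lam → κ < lam → ∀ M ∈ B,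
      ∀ x : XP × XP, Disjoint (Φ p.1 M x.1) (Φ p.2 M x.2) → Sm lam M (Φ p.1 M x.1) →
        Sm lam M (Φ p.2 M x.2) → (∃ T : Set ℕ, T.Finite ∧ Nam M (Φ p.1 M x.1 ∪ Φ p.2 M x.2) T) →
          Sm lam M (Φ p.1 M x.1 ∪ Φ p.2 M x.2) := fun p =>
    Sm.union h.std (V := fun M (q : XP × XP) => Φ p.1 M q.1) (W := fun M q => Φ p.2 M q.2)
      (BLs.pull (bls_phi h p.1) Eqm.fst) (BLs.pull (bls_phi h p.2) Eqm.snd)
  choose k hk hs using h1
  obtain ⟨κ, hκ, hle⟩ := exists_bound k hk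
  obtain ⟨κ', hκ', hsub⟩ := pc_sub h
  refine ⟨max κ κ', max_lt hκ hκ', fun lam hl hlt M hM V W hV hW hsV hsW => ?_⟩
  have hd : Pc (EM m M) (W \ V) := hW.sdiff hV
  have hsd : Sm lam M (W \ V) :=
    hsub lam hl ((le_max_right _ _).trans_lt hlt) M hM W (W \ V) hW hd sdiff_subset hsW
  have e : V ∪ W = V ∪ (W \ V) := by
    rw [union_sdiff_self]
  rw [e]
  have hn := pc_nam h hM (hV.union hd)
  have hdis : Disjoint V (W \ V) := disjoint_sdiff_right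
  obtain ⟨j, x, hx⟩ := (h.nmd.mem M hM V).1 hV
  obtain ⟨j', x', hx'⟩ := (h.nmd.mem M hM (W \ V)).1 hd
  rw [← hx'] at hn hdis hsd ⊢
  rw [← hx] at hn hdis hsV ⊢
  exact hs (j, j') lam hl ((hle _).trans_lt ((le_max_left _ _).trans_lt hlt)) M hM (x, x') hdis
    hsV hsd hn

theorem exists_onep [Countable JJ] (h : Ctx B θ m K κ₀ Φ) :
    ∃ κ₁ : Ordinal.{0}, κ₁ < ω₁ ∧ ∀ lam, Pri lam → κ₁ < lam → ∀ M ∈ B, ∀ V, Pc (EM m M) V →
      ¬ Sm lam M V →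
      (∀ W, Pc (EM m M) W → W ⊆ V → Sm lam M W ∨ Sm lam M (V \ W)) →
      OneP (EM m M) V (Jb m lam M V) := by
  obtain ⟨κ, hκ, hun⟩ := pc_union h
  refine ⟨κ, hκ, fun lam hl hlt M hM V hV hns hone => ?_⟩
  refine ⟨?_, ?_, ?_, ?_, ?_, ?_, ?_, ?_, ?_⟩
  · rintro A ⟨W, -, hWV, -, hA⟩
    exact hA.trans hWV
  · rintro A A' ⟨W, hW, hWV, hs, hA⟩ hAA
    exact ⟨W, hW, hWV, hs, hAA.trans hA⟩
  · rintro A A' ⟨W, hW, hWV, hs, hA⟩ ⟨W', hW', hWV', hs', hA'⟩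
    exact ⟨W ∪ W', hW.union hW', union_subset hWV hWV', hun lam hl hlt M hM W W' hW hW' hs hs',
      union_subset_union hA hA'⟩
  · intro x hx
    exact ⟨{x}, Pc.sing x, singleton_subset_iff.2 hx, fin_sm h hM (Pc.sing x) (finite_singleton x) hl,
      subset_rfl⟩
  · exact ⟨∅, Pc.empty, empty_subset _, fin_sm h hM Pc.empty finite_empty hl, subset_rfl⟩
  · rintro ⟨W, -, hWV, hs, hA⟩
    exact hns ((subset_antisymm hA hWV) ▸ hs)
  · exact hV.fin (symE m M)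
  · intro X Y hXf hYf hd hX hY
    have hL : Pc (EM m M) (Lr (EM m M) V X Y) := Pc.lr hXf hYf hX hY hd
    have hLV : Lr (EM m M) V X Y ⊆ V := (lr_mini ⟨X, cand_self hX hd⟩).1.2.1
    rcases hone _ hL hLV with hs | hs
    · exact Or.inl ⟨_, hL, hLV, hs, subset_rfl⟩
    · exact Or.inr ⟨_, hV.sdiff hL, sdiff_subset, hs, subset_rfl⟩
  · rintro A ⟨W, hW, hWV, hs, hA⟩
    exact ⟨W, ⟨W, hW, hWV, hs, subset_rfl⟩, hA, hW.fin (symE m M)⟩

end Pool.H5.WT
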