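import Pool.Agent.H5.W.T.Coe
import Pool.Agent.H22.RW.NoLB

/-!
# THEOREM W, (THREE): the trace system in the case without loss (module TRC)

The fields of `Tr`: the first five from `OneP`; `arV`: `ar_mem` with `av_iff`; `symC`: as
`com_symm`; `fin`: the type `Zl n` is finite; `t1`, `t2`: as `tr_one`, `tr_two` (if there is no arrow
from `x` to `y` then `E i x y = Fz a i (Lc x) (Lc y)`, and `E (τ i) y x = E i x y`); `t3`: `tr_three`
(`∑ i, (bs a b i).card = n = r` by `card_bs`; the set `D` is in `V`, so closed under `Av` by `av_iff`).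
`exists_gp`: `Tr.parts` gives `G`, `Q`; `tr_three_pc` gives `D`.
-/

set_option autoImplicit false

namespace Pool.H5.WT

open Set Pool.H22.RW

variable {ι : Type} [Fintype ι] [DecidableEq ι] {n r : ℕ} {E : ι → ℕ → ℕ → ZMod 2} {τ : ι → ι}
  {J : Set ℕ → Prop} {a : Fin n → ι} {b : Fin n → ℕ} {V Z₀ : Set ℕ} {x y : ℕ}

private theorem trc_cls (h : Gd E J a b V Z₀ r) {B : Set ℕ} (hB : J B)
    (hc : Cls (Ar E J (bs a b)) B) : Cls (Av E J a b) B := by
  intro x hx y hxy
  exact hc x hx y ((av_iff h.inj h.one h.gb (h.one.sub B hB hx)).1 hxy)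

theorem trace (hs : SymE τ E) (h : Gd E J a b V Z₀ r) (hn : n = r) :
    Tr V J (Av E J a b) (Lc E J a b) (Cmm a τ) where
  sub := h.one.sub
  mono := h.one.mono
  union := h.one.union
  sing := h.one.sing
  empty := h.one.empty
  arV := by
    intro x hx y hxy
    exact ar_mem h.one h.gb hx ((av_iff h.inj h.one h.gb hx).1 hxy)
  symC := by
    intro u v huv i
    have h1 := huv (τ i)
    rw [hs.1 i] at h1
    exact h1.symm
  fin := Set.toFinite _
  t1 := by
    intro x _ y _ hc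
    by_contra hcon
    push Not at hcon
    obtain ⟨h1, h2⟩ := hcon
    apply hc
    intro i
    have e1 : E i x y = Fz a i (Lc E J a b x) (Lc E J a b y) := by
      by_contra h3
      exact h1 ⟨i, h3⟩
    have e2 : E (τ i) y x = Fz a (τ i) (Lc E J a b y) (Lc E J a b x) := by
      by_contra h3
      exact h2 ⟨τ i, h3⟩
    rw [← e1, ← e2, hs.2]
  t2 := by
    rintro x _ y _ hc ⟨i, hi⟩
    refine ⟨τ i, ?_⟩
    rw [← hc i, hs.2]
    exact hi
  t3 := by
    intro A hA
    obtain ⟨D, hD, hAD, -, hcl⟩ := tr_three h.one h.crit h.gb ((card_bs h.inj).trans hn) hA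
    exact ⟨D, hD.1, hAD, trc_cls h hD.1 hcl⟩

theorem exists_gp (hs : SymE τ E) (h : Gd E J a b V Z₀ r) (hn : n = r)
    (hP : ∀ A, J A → ∃ B, J B ∧ A ⊆ B ∧ Pc E B) :
    ∃ (Q : Set (Set (Zl n))) (D : Set ℕ), Pc E D ∧ Gp E J a b τ V Z₀ r D Q := by
  have T := trace hs h hn
  obtain ⟨G, hG, Q, -, hQ⟩ := T.parts
  obtain ⟨D, hD, hGD, -, hcl, hPD⟩ :=
    tr_three_pc hs h.one hP h.crit h.gb ((card_bs h.inj).trans hn) hG
  have hc := trc_cls h hD.1 hcl
  exact ⟨Q, D, hPD, h, T, hD.1, hc, hQ D hD.1 hc hGD⟩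

end Pool.H5.WT
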