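import Pool.Agent.H5.W.T.Los
import Pool.Agent.H5.W.T.Nlg
import Pool.Agent.H5.W.T.Onp
import Pool.Agent.H5.W.T.Trc
import Pool.Agent.H22.RW.SinkB

/-!
# THEOREM W: (THREE) (module FIN)

`κ₁` from `exists_onep`. Let `lam` be given. Parameter type for `n`:
`Y n = (XP × Finset ℕ × (Fin n → ℕ) × XP) × List ℕ`. For the discrete data `(j, n, a, r)` with `n < r`
`few_loss` for `X = Y n`, `V M q = Φ j M q.1.1`, `Z₀`, `b` the projections, and `Few.sm` (for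
`X = XP × Finset ℕ × (Fin n → ℕ) × XP`, `Q M x = Gd ..`) give a level; for `(j, j', n, a, r, Q)` (`Q` in the
finite type `Set (Set (Zl n))`) `few_noloss` with `D M q = Φ j' M q.1.2.2.2` and `Few.sm` give a level.
There are countably many such data (`n` and `a : Fin n → Ix m` : a sigma type); `exists_bound` and
`exists_pri` give `lam'`.

Let `M ∈ B` and `V` be given. If `Sm lam M V` use `Sm.mono`. Otherwise `exists_onep`; the hypothesis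
`hcov` for `J = Jb m lam M V`, `exists_crit` (`Z₀` finite, `r`), `exists_gb` (`bb`, `∑ ≤ r`), `exists_dat` (`n`, `a`, `b`),
`card_bs`: `n ≤ r`. So `Gd` holds. If `n < r` the first level applies; if `n = r` then `exists_gp` (the
hypothesis on `J` is clear from the definition of `Jb`) gives `Q` and the piece `D`. Finite names of `V`:
`exists_nam` (`OneP.fin`).
-/

set_option autoImplicit false

namespace Pool.H5.WT

open Set Ordinal Pool.H62.VT Pool.H62.VS Pool.H5.W Pool.H22.RW Pool.H17.W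

variable {B : Set (Str ca)} {θ κ₀ : Ordinal.{0}} {m K : ℕ} {JJ XP : Type} [Prm XP]
  {Φ : JJ → Str ca → XP → Set ℕ}

private theorem lvl_loss [Countable JJ] (h : Ctx B θ m K κ₀ Φ) {lam : Ordinal.{0}}
    (hl : lam < ω₁) (j : JJ) {n : ℕ} (a : Fin n → Ix m) (r : ℕ) (hn : n < r) :
    ∃ κ : Ordinal.{0}, κ < ω₁ ∧ ∀ lam', Pri lam' → κ < lam' → ∀ M ∈ B, ∀ (y : XP) (Z : Finset ℕ)
      (b : Fin n → ℕ), Gd (EM m M) (Jb m lam M (Φ j M y)) a b (Φ j M y) (↑Z) r →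
      (∃ T : Set ℕ, T.Finite ∧ Nam M (Φ j M y) T) → Sm lam' M (Φ j M y) := by
  have hΦ : BLs B (Φ j) := ⟨κ₀, h.lt, h.nmd.lv j⟩
  obtain ⟨κ, hκ, h1⟩ := Few.sm (X := XP × Finset ℕ × (Fin n → ℕ)) h.std
    (E := fun M x => Φ j M x.1) (BLs.pull hΦ Eqm.fst)
    (Q := fun M x => Gd (EM m M) (Jb m lam M (Φ j M x.1)) a x.2.2 (Φ j M x.1) (↑x.2.1) r)
    (few_loss (X := (XP × Finset ℕ × (Fin n → ℕ)) × List ℕ) (V := fun M q => Φ j M q.1.1)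
      (b := fun q => q.1.2.2) (Z₀ := fun q => q.1.2.1) (a := a) h hl
      (BLs.pull hΦ (Eqm.fst.comp Eqm.fst)) (Eqm.snd.comp (Eqm.snd.comp Eqm.fst))
      (Eqm.fst.comp (Eqm.snd.comp Eqm.fst)) r hn)
  exact ⟨κ, hκ, fun lam' hp hlt M hM y Z b hg hT => h1 lam' hp hlt M hM (y, Z, b) hg hT⟩

private theorem lvl_noloss [Countable JJ] (h : Ctx B θ m K κ₀ Φ) {lam : Ordinal.{0}}
    (hl : lam < ω₁) (j j' : JJ) {n : ℕ} (a : Fin n → Ix m) (r : ℕ) (Q : Set (Set (Zl n))) :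
    ∃ κ : Ordinal.{0}, κ < ω₁ ∧ ∀ lam', Pri lam' → κ < lam' → ∀ M ∈ B, ∀ (y : XP) (Z : Finset ℕ)
      (b : Fin n → ℕ) (y' : XP),
      Gp (EM m M) (Jb m lam M (Φ j M y)) a b tau (Φ j M y) (↑Z) r (Φ j' M y') Q →
      (∃ T : Set ℕ, T.Finite ∧ Nam M (Φ j M y) T) → Sm lam' M (Φ j M y) := by
  have hΦ : BLs B (Φ j) := ⟨κ₀, h.lt, h.nmd.lv j⟩
  have hΦ' : BLs B (Φ j') := ⟨κ₀, h.lt, h.nmd.lv j'⟩
  obtain ⟨κ, hκ, h1⟩ := Few.sm (X := XP × Finset ℕ × (Fin n → ℕ) × XP) h.std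
    (E := fun M x => Φ j M x.1) (BLs.pull hΦ Eqm.fst)
    (Q := fun M x => Gp (EM m M) (Jb m lam M (Φ j M x.1)) a x.2.2.1 tau (Φ j M x.1) (↑x.2.1) r
      (Φ j' M x.2.2.2) Q)
    (few_noloss (X := (XP × Finset ℕ × (Fin n → ℕ) × XP) × List ℕ) (V := fun M q => Φ j M q.1.1)
      (D := fun M q => Φ j' M q.1.2.2.2) (b := fun q => q.1.2.2.1) (Z₀ := fun q => q.1.2.1)
      (a := a) h hl
      (BLs.pull hΦ (Eqm.fst.comp Eqm.fst))
      (BLs.pull hΦ' (Eqm.snd.comp (Eqm.snd.comp (Eqm.snd.comp Eqm.fst))))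
      (Eqm.fst.comp (Eqm.snd.comp (Eqm.snd.comp Eqm.fst))) r Q)
  exact ⟨κ, hκ, fun lam' hp hlt M hM y Z b y' hg hT =>
    h1 lam' hp hlt M hM (y, Z, b, y') hg hT⟩

/-- (THREE): pieces which are one-point at the level `lam` and satisfy the covering condition (which
holds if the rank-width is bounded) are small at one countable level -/
theorem three [Countable JJ] (h : Ctx B θ m K κ₀ Φ) :
    ∃ κ₁ : Ordinal.{0}, κ₁ < ω₁ ∧ ∀ lam, Pri lam → κ₁ < lam → lam < ω₁ →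
      ∃ lam', Pri lam' ∧ lam < lam' ∧ lam' < ω₁ ∧ ∀ M ∈ B, ∀ V, Pc (EM m M) V →
        (∀ J : Set ℕ → Prop, OneP (EM m M) V J → ∃ K, Cov (EM m M) V J K) →
        (∀ W, Pc (EM m M) W → W ⊆ V → Sm lam M W ∨ Sm lam M (V \ W)) → Sm lam' M V := by
  classical
  obtain ⟨κ₁, hκ₁, hone⟩ := exists_onep h
  refine ⟨κ₁, hκ₁, fun lam hlam hκlam hlω => ?_⟩
  have key : ∀ i : (n : ℕ) × (JJ × JJ × (Fin n → Ix m) × ℕ × Set (Set (Zl n))),
      ∃ κ : Ordinal.{0}, κ < ω₁ ∧ ∀ lam', Pri lam' → κ < lam' → ∀ M ∈ B, ∀ (y : XP)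
        (Z : Finset ℕ) (b : Fin i.1 → ℕ),
        (i.1 < i.2.2.2.2.1 → Gd (EM m M) (Jb m lam M (Φ i.2.1 M y)) i.2.2.2.1 b (Φ i.2.1 M y) (↑Z)
          i.2.2.2.2.1 → (∃ T : Set ℕ, T.Finite ∧ Nam M (Φ i.2.1 M y) T) →
          Sm lam' M (Φ i.2.1 M y)) ∧
        ∀ y' : XP, Gp (EM m M) (Jb m lam M (Φ i.2.1 M y)) i.2.2.2.1 b tau (Φ i.2.1 M y) (↑Z)
          i.2.2.2.2.1 (Φ i.2.2.1 M y') i.2.2.2.2.2 →
          (∃ T : Set ℕ, T.Finite ∧ Nam M (Φ i.2.1 M y) T) → Sm lam' M (Φ i.2.1 M y) := by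
    rintro ⟨n, j, j', a, r, Q⟩
    obtain ⟨κ', hκ', h2⟩ := lvl_noloss h hlω j j' a r Q
    by_cases hn : n < r
    · obtain ⟨κ, hκ, h1⟩ := lvl_loss h hlω j a r hn
      refine ⟨max κ κ', max_lt hκ hκ', fun lam' hp hlt M hM y Z b => ⟨fun _ hg hT => ?_,
        fun y' hg hT => ?_⟩⟩
      · exact h1 lam' hp (lt_of_le_of_lt (le_max_left _ _) hlt) M hM y Z b hg hT
      · exact h2 lam' hp (lt_of_le_of_lt (le_max_right _ _) hlt) M hM y Z b y' hg hT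
    · exact ⟨κ', hκ', fun lam' hp hlt M hM y Z b => ⟨fun hn' => absurd hn' hn,
        fun y' hg hT => h2 lam' hp hlt M hM y Z b y' hg hT⟩⟩
  choose k hk hk' using key
  obtain ⟨κ₂, hκ₂, hle⟩ := exists_bound k hk
  obtain ⟨lam', hp, hgt, hlt⟩ := exists_pri (max_lt hκ₂ hlω)
  refine ⟨lam', hp, lt_of_le_of_lt (le_max_right _ _) hgt, hlt, fun M hM V hV hcov hyp => ?_⟩
  by_cases hs : Sm lam M V
  · exact hs.mono (le_trans (le_max_right _ _) hgt.le)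
  have hJ := hone lam hlam hκlam M hM V hV hs hyp
  obtain ⟨K', hK'⟩ := hcov _ hJ
  obtain ⟨Z₀, r, hc⟩ := exists_crit hJ hK'
  obtain ⟨bb, hbb, hsum⟩ := exists_gb hJ hc
  obtain ⟨n, a, b, hinj, hbs⟩ := exists_dat bb
  have hcard : ∑ i, (bs a b i).card = n := card_bs hinj
  rw [hbs] at hcard
  have hnr : n ≤ r := hcard ▸ hsum
  obtain ⟨Z, hZ⟩ : ∃ Z : Finset ℕ, (Z : Set ℕ) = Z₀ := ⟨hc.fin.toFinset, hc.fin.coe_toFinset⟩
  subst hZ
  have hgd : Gd (EM m M) (Jb m lam M V) a b V (↑Z) r :=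
    ⟨hJ, hc, fun i => by rw [hbs]; exact hbb i, hinj⟩
  have hT := exists_nam (h.un M hM) hJ.fin
  have hmem : ∀ A, Pc (EM m M) A → ∃ j x, Φ j M x = A := fun A hA => (h.nmd.mem M hM A).1 hA
  obtain ⟨j, y, hjy⟩ := hmem V hV
  rcases lt_or_eq_of_le hnr with hn | hn
  · subst hjy
    exact (hk' ⟨n, j, j, a, r, ∅⟩ lam' hp (lt_of_le_of_lt ((hle _).trans (le_max_left _ _)) hgt)
      M hM y Z b).1 hn hgd hT
  · obtain ⟨Q, D, hD, hgp⟩ := exists_gp (symE m M) hgd hn (fun A hA => by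
      obtain ⟨W, h1, h2, h3, h4⟩ := hA
      exact ⟨W, ⟨W, h1, h2, h3, Subset.rfl⟩, h4, h1⟩)
    obtain ⟨j', y', hjy'⟩ := hmem D hD
    subst hjy hjy'
    exact (hk' ⟨n, j, j', a, r, Q⟩ lam' hp (lt_of_le_of_lt ((hle _).trans (le_max_left _ _)) hgt)
      M hM y Z b).2 y' hgp hT

end Pool.H5.WT
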