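import Pool.Agent.H5.W.T.Df
import Pool.Agent.H5.W.FewG

/-!
# THEOREM W, (THREE): glueing two sets without arrows (module GLA)

`Few.glue` with the tables `Tb1`, `Tb2` : for `u ∈ E₁ M x`, `w ∈ E₂ M x` and `k < m` the absence of an
arrow from `u` to `w` gives `EM m M (k, c) u w = Fz a (k, c) (label u) (label w)` for `c = false`
(the value of `M k ![u, w]`) and `c = true` (the value of `M k ![w, u]`); for `k ≥ m` both Boolean values
are false because `u ≠ w` (`Un`, disjointness). `few_glue` for `M ∈ B`: `Few.mono`.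
-/

set_option autoImplicit false

namespace Pool.H5.WT

open Set Ordinal Pool.H62.VT Pool.H62.VS Pool.H5.W Pool.H22.RW Pool.H17.W

variable {B : Set (Str ca)} {lam : Ordinal.{0}} {m n : ℕ} {X : Type} [Prm X]
  {V E₁ E₂ : Str ca → X → Set ℕ} {a : Fin n → Ix m} {b : X → Fin n → ℕ}
  {Q₁ Q₂ : Str ca → X → Prop}

/-- the value of the relation `k` at `(u, w)` predicted by the labels -/
def Tb1 (m : ℕ) {n : ℕ} (a : Fin n → Ix m) (u w : Zl n) (k : ℕ) : Bool :=
  if h : k < m then decide (Fz a (⟨k, h⟩, false) u w = 1) else false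

/-- the value of the relation `k` at `(w, u)` predicted by the labels (the arrows start in `u`) -/
def Tb2 (m : ℕ) {n : ℕ} (a : Fin n → Ix m) (w u : Zl n) (k : ℕ) : Bool :=
  if h : k < m then decide (Fz a (⟨k, h⟩, true) u w = 1) else false

private theorem dec_ite (c : Bool) : decide ((if c = true then (1 : ZMod 2) else 0) = 1) = c := by
  cases c <;> decide

theorem tab_of_not_ar {M : Str ca} (hu : Un m M) {x : X} {u w : ℕ} (hne : u ≠ w)
    (h : ¬ Ar' m lam V a b M x u w) (k : ℕ) :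
    M k ![u, w] = Tb1 m a (Lb' m lam V a b M x u) (Lb' m lam V a b M x w) k ∧
      M k ![w, u] = Tb2 m a (Lb' m lam V a b M x w) (Lb' m lam V a b M x u) k := by
  unfold Ar' Av at h
  push Not at h
  by_cases hk : k < m
  · constructor
    · unfold Tb1
      rw [dif_pos hk]
      have h1 := h (⟨k, hk⟩, false)
      unfold Lb'
      rw [← h1]
      exact (dec_ite _).symm
    · unfold Tb2
      rw [dif_pos hk]
      have h1 := h (⟨k, hk⟩, true)
      unfold Lb'
      rw [← h1]
      exact (dec_ite _).symm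
  · constructor
    · unfold Tb1
      rw [dif_neg hk]
      by_contra h1
      exact hne (hu k (not_lt.1 hk) u w (by simpa using h1))
    · unfold Tb2
      rw [dif_neg hk]
      by_contra h1
      exact hne (hu k (not_lt.1 hk) w u (by simpa using h1)).symm

theorem few_glue (hu : ∀ M ∈ B, Un m M) (hE₁ : BLs B E₁) (hE₂ : BLs B E₂)
    (hφ : BLl B (Lb' m lam V a b)) (h1 : Few B Q₁ E₁ (Lb' m lam V a b))
    (h2 : Few B Q₂ E₂ (Lb' m lam V a b)) :
    Few B (fun M x => Q₁ M x ∧ Q₂ M x ∧ Disjoint (E₁ M x) (E₂ M x) ∧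
      ∀ u ∈ E₁ M x, ∀ w ∈ E₂ M x, ¬ Ar' m lam V a b M x u w) (fun M x => E₁ M x ∪ E₂ M x)
      (Lb' m lam V a b) := by
  refine (Few.glue hE₁ hE₂ hφ (Tb1 m a) (Tb2 m a) h1 h2).mono ?_
  rintro M hM x ⟨q1, q2, hd, har⟩
  refine ⟨q1, q2, hd, fun u hu' w hw k => ?_⟩
  have hne : u ≠ w := by
    rintro rfl
    exact Set.disjoint_left.1 hd hu' hw
  exact tab_of_not_ar (hu M hM) hne (har u hu' w hw) k

end Pool.H5.WT
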