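import Pool.Agent.H5.W.T.Df
import Pool.Agent.H5.W.Koe

/-!
# THEOREM W, (THREE): interfaces and cut rank (module RWI)

`rw_ifc`: for the relations `n < m` the four Boolean values are given by `EM m M (n, false)` and
`EM m M (n, true)` (the values `0`, `1` are different); for `n ≥ m` both sides are false since
`u, v ∈ V`, `w ∉ V` (`Un`). `exists_row`: `ifc_finite` and `rw_ifc`.
`exists_nam`: let `T₁ ⊆ V` be from `ifc_finite` and `T₂` (disjoint from `V`) from `ifc_finite_compl`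
(`symE`), `T = T₁ ∪ T₂`. `rep`: clear. `row`: let `u`, `v ∈ V` have the same relations to `T \ V ⊇ T₂`;
for `w ∉ V` there is `t ∈ T₂` with the same relations as `w` to all elements of `V`
(`Ifc E Vᶜ w t`: `E i w y = E i t y` for `y ∈ V`; use `SymE` for the other direction), so
`M n ![u, w] = M n ![u, t] = M n ![v, t] = M n ![v, w]` for `n < m`; for `n ≥ m` all are false.
-/

set_option autoImplicit false

namespace Pool.H5.WT

open Set Ordinal Pool.H62.VT Pool.H62.VS Pool.H5.W Pool.H22.RW Pool.H17.W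

variable {M : Str ca} {m : ℕ} {V : Set ℕ} {u v : ℕ}

private theorem ite_bool {a b : Bool} :
    ((if a = true then (1 : ZMod 2) else 0) = if b = true then 1 else 0) ↔ a = b := by
  cases a <;> cases b <;> simp

/-- a matrix entry is determined by the atomic fact and conversely -/
theorem rw_ifc (hu : Un m M) (huV : u ∈ V) (hvV : v ∈ V) :
    Rw M V u v ↔ Ifc (EM m M) V u v := by
  constructor
  · rintro h ⟨n, b⟩ w hw
    have h1 := h w hw n
    cases b
    · simp only [EM, Bool.false_eq_true, if_false]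
      rw [h1.1]
    · simp only [EM, if_true]
      rw [h1.2]
  · intro h w hw n
    by_cases hn : n < m
    · have h1 := h (⟨n, hn⟩, false) w hw
      have h2 := h (⟨n, hn⟩, true) w hw
      simp only [EM, Bool.false_eq_true, if_false, if_true] at h1 h2
      exact ⟨ite_bool.1 h1, ite_bool.1 h2⟩
    · have hn' : m ≤ n := not_lt.1 hn
      have key : ∀ a b : ℕ, a ≠ b → M n ![a, b] = false := by
        intro a b hab
        rw [← Bool.not_eq_true]
        exact fun h' => hab (hu n hn' a b h')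
      have huw : u ≠ w := fun h' => hw (h' ▸ huV)
      have hvw : v ≠ w := fun h' => hw (h' ▸ hvV)
      rw [key u w huw, key v w hvw, key w u huw.symm, key w v hvw.symm]
      exact ⟨rfl, rfl⟩

theorem exists_row (hu : Un m M) (h : kap (EM m M) V ≠ ⊤) :
    ∃ F : Set ℕ, F.Finite ∧ F ⊆ V ∧ ∀ u ∈ V, ∃ v ∈ F, Rw M V u v := by
  obtain ⟨T, hT, hTV, h1⟩ := ifc_finite h
  refine ⟨T, hT, hTV, fun u huV => ?_⟩
  obtain ⟨v, hv, h2⟩ := h1 u huV
  exact ⟨v, hv, (rw_ifc hu huV (hTV hv)).2 h2⟩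

theorem exists_nam (hu : Un m M) (h : kap (EM m M) V ≠ ⊤) :
    ∃ T : Set ℕ, T.Finite ∧ Nam M V T := by
  obtain ⟨T₁, hT₁, hTV₁, h1⟩ := exists_row hu h
  obtain ⟨T₂, hT₂, hTV₂, h2⟩ := ifc_finite_compl (symE m M) h
  refine ⟨T₁ ∪ T₂, hT₁.union hT₂, ⟨fun u huV v hvV huv w hw => ?_, fun u huV => ?_⟩⟩
  · obtain ⟨t, ht, h3⟩ := h2 w hw
    have htV : t ∉ V := fun h' => Set.disjoint_left.1 hTV₂ h' ht
    have h4 : Rw M Vᶜ w t := (rw_ifc (V := Vᶜ) hu hw htV).2 h3
    have h5 := huv t ⟨Or.inr ht, htV⟩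
    intro n
    have h6 := h4 u (fun h' => h' huV) n
    have h7 := h4 v (fun h' => h' hvV) n
    have h8 := h5 n
    exact ⟨h6.2.trans (h8.1.trans h7.2.symm), h6.1.trans (h8.2.trans h7.1.symm)⟩
  · obtain ⟨v, hv, h3⟩ := h1 u huV
    exact ⟨v, ⟨Or.inl hv, hTV₁ hv⟩, h3⟩

end Pool.H5.WT
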