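import Pool.Agent.H5.W.T.Gla
import Pool.Agent.H5.W.T.Blc
import Pool.Agent.H5.W.T.Azc
import Pool.Agent.H5.W.T.Rwi
import Pool.Agent.H5.W.D1

/-!
# THEOREM W, (THREE): the case of loss (module LOS)

Let `C l M x = Ch .. l ∩ V M x` (`BLs_Ch`, `BLs.inter`; for good data it is the chain, as its members are
subsets of `V`), `E₁ = ⋃ l, C l` (`BLs.iUnion`), `E₂ = V \ ⋃ l, Ch .. l`. Then `E₁ ∪ E₂ = V` for all
`(M, x)`, good or not. `Few.iUnion` for `E₁`: monotone (`ch_mono`), finite row classes (`ch_lat` gives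
`kap .. ≤ r`, `exists_row`), every `C l` is bounded, so contained in a small piece `Φ j M y`
(`W j M (x, y) = Φ j M y`, `Y = XP`, `Nmd.mem`). `few_bdd` for `E₂` (`ch_compl`). `few_glue`: disjoint, no
arrows from `E₁` to `E₂` (`ch_cls`). Finally `few_drop` and `Few.mono`.
-/

set_option autoImplicit false

namespace Pool.H5.WT

open Set Ordinal Pool.H62.VT Pool.H62.VS Pool.H5.W Pool.H22.RW Pool.H17.W

variable {B : Set (Str ca)} {θ κ₀ lam : Ordinal.{0}} {m K n : ℕ} {JJ XP X : Type} [Prm XP] [Prm X]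
  {Φ : JJ → Str ca → XP → Set ℕ} {V : Str ca → X → Set ℕ} {a : Fin n → Ix m}
  {b : X → Fin n → ℕ} {Z₀ : X → Finset ℕ}

/-- the members of the chain inside `V` -/
private def lsC (m : ℕ) (lam : Ordinal.{0}) {X : Type} {n : ℕ} (V : Str ca → X → Set ℕ) (a : Fin n → Ix m)
    (b : X → Fin n → ℕ) (Z₀ : X → Finset ℕ) (r : ℕ) (l : ℕ) (M : Str ca) (x : X) : Set ℕ :=
  Ch (EM m M) (Jb m lam M (V M x)) a (b x) (↑(Z₀ x)) r l ∩ V M x

/-- the complement of the chain -/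
private def lsE (m : ℕ) (lam : Ordinal.{0}) {X : Type} {n : ℕ} (V : Str ca → X → Set ℕ) (a : Fin n → Ix m)
    (b : X → Fin n → ℕ) (Z₀ : X → Finset ℕ) (r : ℕ) (M : Str ca) (x : X) : Set ℕ :=
  V M x \ ⋃ l, Ch (EM m M) (Jb m lam M (V M x)) a (b x) (↑(Z₀ x)) r l

private theorem ls_union (M : Str ca) (x : X) (r : ℕ) :
    (⋃ l, lsC m lam V a b Z₀ r l M x) ∪ lsE m lam V a b Z₀ r M x = V M x := by
  ext v
  unfold lsC lsE
  constructor
  · rintro (hv | hv)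
    · obtain ⟨l, hl⟩ := mem_iUnion.1 hv
      exact hl.2
    · exact hv.1
  · intro hv
    by_cases h : v ∈ ⋃ l, Ch (EM m M) (Jb m lam M (V M x)) a (b x) (↑(Z₀ x)) r l
    · obtain ⟨l, hl⟩ := mem_iUnion.1 h
      exact Or.inl (mem_iUnion.2 ⟨l, hl, hv⟩)
    · exact Or.inr ⟨hv, h⟩

private theorem ls_eq {M : Str ca} {x : X} {r : ℕ}
    (g : Gd (EM m M) (Jb m lam M (V M x)) a (b x) (V M x) (↑(Z₀ x)) r) (l : ℕ) :
    lsC m lam V a b Z₀ r l M x = Ch (EM m M) (Jb m lam M (V M x)) a (b x) (↑(Z₀ x)) r l :=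
  inter_eq_left.2 (g.one.sub _ (ch_lat g l).1)

theorem few_loss [Countable JJ] (h : Ctx B θ m K κ₀ Φ) (hl : lam < ω₁) (hV : BLs B V) (hb : Eqm b)
    (hZ : Eqm Z₀) (r : ℕ) (hn : n < r) :
    Few B (fun M x => Gd (EM m M) (Jb m lam M (V M x)) a (b x) (V M x) (↑(Z₀ x)) r) V
      (fun _ _ _ => ()) := by
  have hC : ∀ l, BLs B (lsC m lam V a b Z₀ r l) := fun l => (BLs_Ch h hl hV hb hZ r l).inter hV
  have hE₁ : BLs B (fun M x => ⋃ l, lsC m lam V a b Z₀ r l M x) := BLs.iUnion hC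
  have hE₂ : BLs B (lsE m lam V a b Z₀ r) :=
    BLs.sdiff hV (BLs.iUnion fun l => BLs_Ch h hl hV hb hZ r l)
  have hφ : BLl B (Lb' m lam V a b) := BLl_Lb' h hl hV hb
  have hW : ∀ j, BLs B (fun M (q : X × XP) => Φ j M q.2) := fun j =>
    BLs.pull (W := Φ j) (BLs_piece h j) Eqm.snd
  have f1 := Few.iUnion (J := JJ) (Y := XP) hC hW hφ hl
  have f2 := few_bdd (V := V) h hl hE₂ hφ
  have f3 := few_drop (few_glue h.un hE₁ hE₂ hφ f1 f2)
  have e : (fun (M : Str ca) (x : X) => (⋃ l, lsC m lam V a b Z₀ r l M x) ∪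
      lsE m lam V a b Z₀ r M x) = V := by
    funext M x
    exact ls_union M x r
  rw [e] at f3
  refine f3.mono fun M hM x g => ?_
  refine ⟨⟨?_, ?_, ?_⟩, ?_, ?_, ?_⟩
  · intro i j hij v hv
    exact ⟨ch_mono g hij hv.1, hv.2⟩
  · intro l
    rw [ls_eq g l]
    refine exists_row (h.un M hM) ?_
    intro ht
    have h1 := (ch_lat g l).2.2
    rw [ht] at h1
    exact absurd h1 (by simp)
  · intro l
    rw [ls_eq g l]
    obtain ⟨W, hW1, -, hW3, hW4⟩ := (ch_lat g l).1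
    obtain ⟨j, y, hy⟩ := (h.nmd.mem M hM W).1 hW1
    refine ⟨j, y, ?_⟩
    show _ ⊆ Φ j M y ∧ Sm lam M (Φ j M y)
    rw [hy]
    exact ⟨hW4, hW3⟩
  · exact ch_compl g hn
  · rw [Set.disjoint_left]
    intro v hv hv'
    obtain ⟨l, hl⟩ := mem_iUnion.1 hv
    exact hv'.2 (mem_iUnion.2 ⟨l, hl.1⟩)
  · intro u hu w hw harr
    obtain ⟨l, hl⟩ := mem_iUnion.1 hu
    exact hw.2 (ch_cls g u (mem_iUnion.2 ⟨l, hl.1⟩) w harr)

end Pool.H5.WT
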