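import Pool.Agent.H5.W.T.Gla
import Pool.Agent.H5.W.T.D3
import Pool.Agent.H5.W.Tin

/-!
# THEOREM W, (THREE): the default function for the parts (module NLA)

`N = ex M (lbl .. M (x, t))`. `dec_dg`: `dg N v` at `2 * (2 * cdn u) + 1` is true iff
`2 * cdn u ∈ pr2 (cod (label v)) _` (`ex_odd`) iff `u` is the label of `v` (`cdn` is injective).
`ar_iff`: for `u ≠ v` : relation number `2 * k` of `N` is the relation `k` of `M` (`ex_even`), its
predicted values are `(Tb1 .., Tb2 ..)` of the labels; the odd relations are false at `(u, v)` and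
`(v, u)` (`ex_odd`). For `k ≥ m` the relation `k` of `M` is false at `(u, v)`, `(v, u)` (`Un`). For
`k < m` the two values are as predicted iff `EM m M (k, false) u v` and `EM m M (k, true) u v` are.
`cl_iff`: `cl` is defined with steps `Ar G N b c ∧ c ∈ S`; all points of a path starting in `S` are in
`S`; `Relation.ReflTransGen.mono` in both directions.
-/

set_option autoImplicit false

namespace Pool.H5.WT

open Set Ordinal Pool.H62.VT Pool.H62.VS Pool.H5.W Pool.H22.RW Pool.H17.W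

/-- an injective numbering of the labels -/
noncomputable def cdn {n : ℕ} : Zl n → ℕ := (exists_injective_nat (Zl n)).choose

theorem cdn_inj {n : ℕ} : Function.Injective (cdn (n := n)) :=
  (exists_injective_nat (Zl n)).choose_spec

/-- the code of a label -/
noncomputable def cod {n : ℕ} (u : Zl n) : Set ℕ := {cdn u}

theorem cod_inj {n : ℕ} {u v : Zl n} (h : cod u = cod v) : u = v :=
  cdn_inj (Set.singleton_eq_singleton_iff.1 h)

open Classical in
/-- the label coded by diagonal facts -/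
noncomputable def dec {n : ℕ} (f : ℕ → Bool) : Zl n :=
  if h : ∃ u : Zl n, f (2 * (2 * cdn u) + 1) = true then h.choose else fun _ => 0

/-- the labels for chapter D3 -/
noncomputable def lbl (m : ℕ) (lam : Ordinal.{0}) {X : Type} {n : ℕ} (V : Str ca → X → Set ℕ)
    (a : Fin n → Ix m) (b : X → Fin n → ℕ) (M : Str ca) (q : X × List ℕ) (v : ℕ) : Set ℕ :=
  pr2 (cod (Lb' m lam V a b M q.1 v)) (lab M q.2 v)

/-- the default function -/
noncomputable def Gf (m : ℕ) {n : ℕ} (a : Fin n → Ix m) : Pool.H27.SW.Df := fun f g k =>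
  if k % 2 = 0 then (Tb1 m a (dec f) (dec g) (k / 2), Tb2 m a (dec g) (dec f) (k / 2))
  else (false, false)

variable {lam : Ordinal.{0}} {m n : ℕ} {X : Type} {V : Str ca → X → Set ℕ} {a : Fin n → Ix m}
  {b : X → Fin n → ℕ} {M : Str ca} {q : X × List ℕ} {u v : ℕ} {S : Set ℕ}

private theorem bit_iff (z : ZMod 2) (β : Bool) :
    ((if β = true then (1 : ZMod 2) else 0) = z) ↔ β = decide (z = 1) := by
  revert z β
  decide

private theorem pr2_even {A A' : Set ℕ} {j : ℕ} : 2 * j ∈ pr2 A A' ↔ j ∈ A := by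
  constructor
  · rintro ⟨i, ⟨h1, h2⟩ | ⟨h1, -⟩⟩
    · rw [show j = i by omega]
      exact h2
    · omega
  · intro h
    exact ⟨j, Or.inl ⟨rfl, h⟩⟩

private theorem dg_lbl (w : Zl n) :
    Pool.H27.SW.dg (ex M (lbl m lam V a b M q)) v (2 * (2 * cdn w) + 1) = true ↔
      w = Lb' m lam V a b M q.1 v := by
  unfold Pool.H27.SW.dg
  rw [ex_odd]
  constructor
  · rintro ⟨-, h⟩
    have h2 : cdn w ∈ cod (Lb' m lam V a b M q.1 v) := pr2_even.1 h
    exact cdn_inj h2
  · rintro rfl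
    exact ⟨rfl, pr2_even.2 rfl⟩

theorem dec_dg : dec (Pool.H27.SW.dg (ex M (lbl m lam V a b M q)) v) =
    Lb' m lam V a b M q.1 v := by
  have h : ∃ w : Zl n, Pool.H27.SW.dg (ex M (lbl m lam V a b M q)) v (2 * (2 * cdn w) + 1) = true :=
    ⟨_, dg_lbl _ |>.2 rfl⟩
  unfold dec
  rw [dif_pos h]
  exact (dg_lbl _).1 h.choose_spec

private theorem tb_iff (hu : Un m M) (hne : u ≠ v) (p w : Zl n) (k : ℕ) :
    (M k ![u, v], M k ![v, u]) = (Tb1 m a p w k, Tb2 m a w p k) ↔
      ∀ h : k < m, EM m M (⟨k, h⟩, false) u v = Fz a (⟨k, h⟩, false) p w ∧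
        EM m M (⟨k, h⟩, true) u v = Fz a (⟨k, h⟩, true) p w := by
  rw [Prod.mk.injEq]
  by_cases hk : k < m
  · have e1 : EM m M (⟨k, hk⟩, false) u v = (if M k ![u, v] = true then (1 : ZMod 2) else 0) := by
      simp [EM]
    have e2 : EM m M (⟨k, hk⟩, true) u v = (if M k ![v, u] = true then (1 : ZMod 2) else 0) := by
      simp [EM]
    have e3 : Tb1 m a p w k = decide (Fz a (⟨k, hk⟩, false) p w = 1) := by
      unfold Tb1
      rw [dif_pos hk]
    have e4 : Tb2 m a w p k = decide (Fz a (⟨k, hk⟩, true) p w = 1) := by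
      unfold Tb2
      rw [dif_pos hk]
    rw [e3, e4, ← bit_iff, ← bit_iff, ← e1, ← e2]
    exact ⟨fun h _ => h, fun h => h hk⟩
  · have e3 : Tb1 m a p w k = false := by
      unfold Tb1
      rw [dif_neg hk]
    have e4 : Tb2 m a w p k = false := by
      unfold Tb2
      rw [dif_neg hk]
    have e5 : M k ![u, v] = false := by
      rw [← Bool.not_eq_true]
      exact fun h => hne (hu k (not_lt.1 hk) u v h)
    have e6 : M k ![v, u] = false := by
      rw [← Bool.not_eq_true]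
      exact fun h => hne (hu k (not_lt.1 hk) v u h).symm
    rw [e3, e4, e5, e6]
    exact ⟨fun _ h => absurd h hk, fun _ => ⟨rfl, rfl⟩⟩

theorem ar_iff (hu : Un m M) : Pool.H27.SW.Ar (Gf m a) (ex M (lbl m lam V a b M q)) u v ↔
    u ≠ v ∧ Ar' m lam V a b M q.1 u v := by
  unfold Pool.H27.SW.Ar
  refine and_congr_right fun hne => ?_
  have hne2 : (![u, v] : Fin 2 → ℕ) 0 ≠ (![u, v] : Fin 2 → ℕ) 1 := hne
  have hne3 : (![v, u] : Fin 2 → ℕ) 0 ≠ (![v, u] : Fin 2 → ℕ) 1 := fun h => hne h.symm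
  have hev : ∀ k, (Gf m a (Pool.H27.SW.dg (ex M (lbl m lam V a b M q)) u)
      (Pool.H27.SW.dg (ex M (lbl m lam V a b M q)) v) (2 * k)) =
      (Tb1 m a (Lb' m lam V a b M q.1 u) (Lb' m lam V a b M q.1 v) k,
        Tb2 m a (Lb' m lam V a b M q.1 v) (Lb' m lam V a b M q.1 u) k) := by
    intro k
    unfold Gf
    rw [if_pos (by omega), dec_dg, dec_dg, show 2 * k / 2 = k by omega]
  have hod : ∀ k, (Gf m a (Pool.H27.SW.dg (ex M (lbl m lam V a b M q)) u)
      (Pool.H27.SW.dg (ex M (lbl m lam V a b M q)) v) (2 * k + 1)) = (false, false) := by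
    intro k
    unfold Gf
    rw [if_neg (by omega)]
  constructor
  · rintro ⟨k', hk'⟩
    rcases Nat.even_or_odd' k' with ⟨k, rfl | rfl⟩
    · rw [hev, ex_even, ex_even, Ne, tb_iff hu hne] at hk'
      by_contra hcon
      refine hk' fun h => ⟨?_, ?_⟩
      · by_contra hc
        exact hcon ⟨_, hc⟩
      · by_contra hc
        exact hcon ⟨_, hc⟩
    · exfalso
      refine hk' ?_
      rw [hod]
      have e1 : ex M (lbl m lam V a b M q) (2 * k + 1) ![u, v] = false := by
        rw [← Bool.not_eq_true, ex_odd]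
        exact fun h => hne2 h.1
      have e2 : ex M (lbl m lam V a b M q) (2 * k + 1) ![v, u] = false := by
        rw [← Bool.not_eq_true, ex_odd]
        exact fun h => hne3 h.1
      rw [e1, e2]
  · rintro ⟨⟨⟨k, hk⟩, c⟩, hi⟩
    refine ⟨2 * k, ?_⟩
    rw [hev, ex_even, ex_even, Ne, tb_iff hu hne]
    intro h
    cases c
    · exact hi (h hk).1
    · exact hi (h hk).2

theorem cl_iff (hu : Un m M) (F : Finset ℕ) :
    Pool.H27.SW.cl (Gf m a) (ex M (lbl m lam V a b M q)) S ↑F =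
      {y | y ∈ S ∧ ∃ z : ℕ, z ∈ F ∧ z ∈ S ∧
        Rch (fun c d => c ≠ d ∧ Ar' m lam V a b M q.1 c d ∧ d ∈ S) z y} := by
  ext y
  constructor
  · rintro ⟨z, ⟨hzF, hzS⟩, hr⟩
    refine ⟨?_, z, hzF, hzS, ?_⟩
    · rcases Relation.ReflTransGen.cases_tail hr with h | ⟨c, -, h⟩
      · rw [h]
        exact hzS
      · exact h.2
    · refine Relation.ReflTransGen.mono (fun c d h => ?_) _ _ hr
      have h1 := (ar_iff hu).1 h.1
      exact ⟨h1.1, h1.2, h.2⟩
  · rintro ⟨-, z, hzF, hzS, hr⟩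
    refine ⟨z, ⟨hzF, hzS⟩, ?_⟩
    refine Relation.ReflTransGen.mono (fun c d h => ?_) _ _ hr
    exact ⟨(ar_iff hu).2 ⟨h.1, h.2.1⟩, h.2.2⟩

end Pool.H5.WT
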