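import Pool.Agent.H5.W.T.Nla
import Pool.Agent.H5.W.T.Bll
import Pool.Agent.H5.W.T.Rch

/-!
# THEOREM W, (THREE): unbounded parts are directed sums (module NLB)

`BLs_cl`: by `cl_iff` (`BL_congr`) the family of closures is `BLs_clo` for the relation
`fun M x c d => c ≠ d ∧ Ar' .. c d ∧ d ∈ S M x`, of bounded level (`BL.eqv`, `BL_Ar'`, `BL.pull`), over the
parameter type `X × List ℕ`. `BL_q3`: `DS` says: for all finite `F` there is `v` with not
(`v ∈ cl F ↔ v ∈ S`); for all `v ∈ S` there is a finite `E` such that for all `w ∈ S`, `w ∉ cl E` we have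
`v ∈ cl {w}` (`BL.all`, `BL.ex`, `Eqm.singleton`), and `BL_jb`. `BLl_lbl`: `BLl_Lb'`, `BL.lab`, `BL.pull`,
`BL.comp2`.

`q3_of_gp`: (a) a path from `u ∈ S` to `v ∈ S` in `V` stays in `S` : outside `D` (`D` is closed and
`v ∉ D`), inside the part by `Parts.arr`; so for `u`, `v ∈ S` reachability by steps
`c ≠ d ∧ Ar' c d ∧ d ∈ S` is `Rch Ar' u v`. (b) The closure of a finite set `F` is bounded: it is
contained in the union of the sets `{y | Rch .. z y}`, `z ∈ F ∩ S` (`Tr.rch_bdd`, `Tr.union`,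
`Finset.induction_on`, `Tr.empty`); `S` is not bounded, so `ub`. (c) `dom`: `Parts.star` for `v` gives
`z ∈ S`; `E = {z}`: `w ∉ cl {z}` gives `Rch w v`, by (a) `v ∈ cl {w}`.
-/

set_option autoImplicit false

namespace Pool.H5.WT

open Set Ordinal Pool.H62.VT Pool.H62.VS Pool.H5.W Pool.H22.RW Pool.H17.W

variable {B : Set (Str ca)} {θ κ₀ lam : Ordinal.{0}} {m K n : ℕ} {JJ XP X : Type} [Prm XP] [Prm X]
  {Φ : JJ → Str ca → XP → Set ℕ} {V D S : Str ca → X → Set ℕ} {a : Fin n → Ix m}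
  {b : X → Fin n → ℕ} {Z₀ : X → Finset ℕ}

/-- `S` is a directed sum whose closures of finite sets are bounded -/
def Q3 (m : ℕ) (lam : Ordinal.{0}) {X : Type} {n : ℕ} (V S : Str ca → X → Set ℕ)
    (a : Fin n → Ix m) (b : X → Fin n → ℕ) (M : Str ca) (q : X × List ℕ) : Prop :=
  Pool.H27.SW.DS (Gf m a) (ex M (lbl m lam V a b M q)) (S M q.1) ∧
    ∀ F : Finset ℕ, Jb m lam M (V M q.1)
      (Pool.H27.SW.cl (Gf m a) (ex M (lbl m lam V a b M q)) (S M q.1) ↑F)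

theorem BLl_lbl [Countable JJ] (h : Ctx B θ m K κ₀ Φ) (hl : lam < ω₁) (hV : BLs B V)
    (hb : Eqm b) : BLl B (lbl m lam V a b) := by
  have h1 : BLl B (fun M (q : X × List ℕ) => Lb' m lam V a b M q.1) :=
    BLl.pull (BLl_Lb' h hl hV hb) Eqm.fst
  have h2 : BLl B (fun M (q : X × List ℕ) => lab M q.2) :=
    BLl.pull BL.lab (g := fun q : X × List ℕ => q.2) Eqm.snd
  exact BL.comp2 h1 h2 (fun z s => pr2 (cod z) s)

theorem BLs_cl [Countable JJ] (h : Ctx B θ m K κ₀ Φ) (hl : lam < ω₁) (hV : BLs B V)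
    (hS : BLs B S) (hb : Eqm b) : BLs B (fun M (p : (X × List ℕ) × Finset ℕ) =>
      Pool.H27.SW.cl (Gf m a) (ex M (lbl m lam V a b M p.1)) (S M p.1.1) ↑p.2) := by
  have hR : BL B (fun M (q : (X × List ℕ) × ℕ × ℕ) => q.2.1 ≠ q.2.2 ∧
      Ar' m lam V a b M q.1.1 q.2.1 q.2.2 ∧ q.2.2 ∈ S M q.1.1) := by
    refine BL.and (BL.eqv (Eqm.fst.comp Eqm.snd) (Eqm.snd.comp Eqm.snd)).not (BL.and ?_ ?_)
    · exact BL.pull (Φ := fun M (q : X × ℕ × ℕ) => Ar' m lam V a b M q.1 q.2.1 q.2.2)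
        (BL_Ar' h hl hV hb) (g := fun q : (X × List ℕ) × ℕ × ℕ => (q.1.1, q.2))
        ((Eqm.fst.comp Eqm.fst).pair Eqm.snd)
    · exact BL.pull (Φ := fun M (q : X × ℕ) => q.2 ∈ S M q.1) hS
        (g := fun q : (X × List ℕ) × ℕ × ℕ => (q.1.1, q.2.2))
        ((Eqm.fst.comp Eqm.fst).pair (Eqm.snd.comp Eqm.snd))
  have h1 := BLs_clo (R := fun (M : Str ca) (p : X × List ℕ) (c d : ℕ) => c ≠ d ∧
    Ar' m lam V a b M p.1 c d ∧ d ∈ S M p.1) (V := fun M (p : X × List ℕ) => S M p.1) hR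
    (BLs.pull hS Eqm.fst)
  refine BL_congr h1 fun M hM p => ?_
  have h2 := cl_iff (lam := lam) (V := V) (a := a) (b := b) (q := p.1.1) (S := S M p.1.1.1)
    (h.un M hM) p.1.2
  show (p.2 ∈ Pool.H27.SW.cl (Gf m a) (ex M (lbl m lam V a b M p.1.1)) (S M p.1.1.1) ↑p.1.2) = _
  rw [h2]

/-- the two conditions of `DS` for an abstract closure operator -/
private theorem ub_bl {Y : Type} [Prm Y] {C : Str ca → Y → Set ℕ → Set ℕ}
    {T : Str ca → Y → Set ℕ} (hC : BL B (fun M (q : (Y × Finset ℕ) × ℕ) => q.2 ∈ C M q.1.1 ↑q.1.2))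
    (hT : BLs B T) : BL B (fun M (q : Y) => ∀ F : Finset ℕ, C M q ↑F ≠ T M q) := by
  have h1 : BL B (fun M (q : Y) => ∀ F : Finset ℕ, ¬ ∀ v : ℕ, (v ∈ C M q ↑F ↔ v ∈ T M q)) := by
    refine BL.all (P := fun (M : Str ca) (q : Y × Finset ℕ) => ¬ ∀ v : ℕ,
      (v ∈ C M q.1 ↑q.2 ↔ v ∈ T M q.1)) ?_
    refine (BL.all (P := fun (M : Str ca) (q : (Y × Finset ℕ) × ℕ) =>
      (q.2 ∈ C M q.1.1 ↑q.1.2 ↔ q.2 ∈ T M q.1.1)) ?_).not
    refine BL.iff hC ?_
    exact BL.pull (Φ := fun M (q : Y × ℕ) => q.2 ∈ T M q.1) hT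
      (g := fun q : (Y × Finset ℕ) × ℕ => (q.1.1, q.2))
      ((Eqm.fst.comp Eqm.fst).pair Eqm.snd)
  have e : (fun (M : Str ca) (q : Y) => ∀ F : Finset ℕ, C M q ↑F ≠ T M q) =
      fun M q => ∀ F : Finset ℕ, ¬ ∀ v : ℕ, (v ∈ C M q ↑F ↔ v ∈ T M q) := by
    funext M q
    rw [eq_iff_iff]
    exact forall_congr' fun F => not_congr Set.ext_iff
  rw [e]
  exact h1

private theorem dom_bl {Y : Type} [Prm Y] {C : Str ca → Y → Set ℕ → Set ℕ}
    {T : Str ca → Y → Set ℕ} (hC : BL B (fun M (q : (Y × Finset ℕ) × ℕ) => q.2 ∈ C M q.1.1 ↑q.1.2))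
    (hT : BLs B T) : BL B (fun M (q : Y) => ∀ v ∈ T M q, ∃ E : Finset ℕ, ∀ w ∈ T M q,
      w ∉ C M q ↑E → v ∈ C M q {w}) := by
  have h1 : BL B (fun M (q : Y) => ∀ v : ℕ, v ∈ T M q → ∃ E : Finset ℕ, ∀ w : ℕ, w ∈ T M q →
      ¬ w ∈ C M q ↑E → v ∈ C M q ↑({w} : Finset ℕ)) := by
    refine BL.all (P := fun (M : Str ca) (q : Y × ℕ) => q.2 ∈ T M q.1 →
      ∃ E : Finset ℕ, ∀ w : ℕ, w ∈ T M q.1 → ¬ w ∈ C M q.1 ↑E →
        q.2 ∈ C M q.1 ↑({w} : Finset ℕ)) ?_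
    refine BL.imp hT (BL.ex (P := fun (M : Str ca) (q : (Y × ℕ) × Finset ℕ) =>
      ∀ w : ℕ, w ∈ T M q.1.1 → ¬ w ∈ C M q.1.1 ↑q.2 →
        q.1.2 ∈ C M q.1.1 ↑({w} : Finset ℕ)) ?_)
    refine BL.all (P := fun (M : Str ca) (q : ((Y × ℕ) × Finset ℕ) × ℕ) =>
      q.2 ∈ T M q.1.1.1 → ¬ q.2 ∈ C M q.1.1.1 ↑q.1.2 →
        q.1.1.2 ∈ C M q.1.1.1 ↑({q.2} : Finset ℕ)) ?_
    have hx : Eqm (fun q : ((Y × ℕ) × Finset ℕ) × ℕ => q.1.1.1) :=
      Eqm.fst.comp (Eqm.fst.comp Eqm.fst)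
    have hv : Eqm (fun q : ((Y × ℕ) × Finset ℕ) × ℕ => q.1.1.2) :=
      Eqm.snd.comp (Eqm.fst.comp Eqm.fst)
    have hE : Eqm (fun q : ((Y × ℕ) × Finset ℕ) × ℕ => q.1.2) := Eqm.snd.comp Eqm.fst
    have hw : Eqm (fun q : ((Y × ℕ) × Finset ℕ) × ℕ => q.2) := Eqm.snd
    refine BL.imp ?_ (BL.imp (BL.not ?_) ?_)
    · exact BL.pull (Φ := fun M (q : Y × ℕ) => q.2 ∈ T M q.1) hT (hx.pair hw)
    · exact BL.pull (Φ := fun M (q : (Y × Finset ℕ) × ℕ) => q.2 ∈ C M q.1.1 ↑q.1.2) hC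
        ((hx.pair hE).pair hw)
    · exact BL.pull (Φ := fun M (q : (Y × Finset ℕ) × ℕ) => q.2 ∈ C M q.1.1 ↑q.1.2) hC
        ((hx.pair (Eqm.singleton hw)).pair hv)
  simp only [Finset.coe_singleton] at h1
  exact h1

theorem BL_q3 [Countable JJ] (h : Ctx B θ m K κ₀ Φ) (hl : lam < ω₁) (hV : BLs B V)
    (hS : BLs B S) (hb : Eqm b) : BL B (Q3 m lam V S a b) := by
  have hc := BLs_cl (a := a) h hl hV hS hb
  have hT : BLs B (fun M (q : X × List ℕ) => S M q.1) := BLs.pull hS Eqm.fst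
  have h1 := ub_bl (C := fun M (q : X × List ℕ) F =>
    Pool.H27.SW.cl (Gf m a) (ex M (lbl m lam V a b M q)) (S M q.1) F) hc hT
  have h2 := dom_bl (C := fun M (q : X × List ℕ) F =>
    Pool.H27.SW.cl (Gf m a) (ex M (lbl m lam V a b M q)) (S M q.1) F) hc hT
  have h3 : BL B (fun M (q : X × List ℕ) => ∀ F : Finset ℕ, Jb m lam M (V M q.1)
      (Pool.H27.SW.cl (Gf m a) (ex M (lbl m lam V a b M q)) (S M q.1) ↑F)) := by
    refine BL.all (P := fun (M : Str ca) (q : (X × List ℕ) × Finset ℕ) =>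
      Jb m lam M (V M q.1.1)
        (Pool.H27.SW.cl (Gf m a) (ex M (lbl m lam V a b M q.1)) (S M q.1.1) ↑q.2)) ?_
    exact BL_jb (V := fun M (q : (X × List ℕ) × Finset ℕ) => V M q.1.1)
      (A := fun M (q : (X × List ℕ) × Finset ℕ) =>
        Pool.H27.SW.cl (Gf m a) (ex M (lbl m lam V a b M q.1)) (S M q.1.1) ↑q.2) h hl
      (hV.pull (Eqm.fst.comp Eqm.fst)) hc
  refine BL_congr ((h1.and h2).and h3) fun M _ q => ?_
  rw [eq_iff_iff]
  constructor
  · rintro ⟨h4, h5⟩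
    exact ⟨⟨h4.ub, h4.dom⟩, h5⟩
  · rintro ⟨⟨h4, h6⟩, h5⟩
    exact ⟨⟨h4, h6⟩, h5⟩

theorem q3_of_gp {M : Str ca} (hu : Un m M) {x : X} {r : ℕ} {Q : Set (Set (Zl n))}
    {q : Set (Zl n)} (hq : q ∈ Q)
    (hg : Gp (EM m M) (Jb m lam M (V M x)) a (b x) tau (V M x) (↑(Z₀ x)) r (D M x) Q)
    (hS : S M x = prt (V M x) (Ar' m lam V a b M x) (Lb' m lam V a b M x) (D M x) q)
    (hn : ¬ Jb m lam M (V M x) (S M x)) (t : List ℕ) : Q3 m lam V S a b M (x, t) := by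
  classical
  have htr : Tr (V M x) (Jb m lam M (V M x)) (Ar' m lam V a b M x) (Lb' m lam V a b M x)
      (Cmm a tau) := hg.tr
  have hprt : Parts (V M x) (Jb m lam M (V M x)) (Ar' m lam V a b M x) (Lb' m lam V a b M x) Q
      (D M x) := hg.prt
  have hcls : Cls (Ar' m lam V a b M x) (D M x) := hg.cls
  have hSV : ∀ y ∈ S M x, y ∈ V M x := fun y hy => by
    rw [hS] at hy
    exact hy.1
  have hSD : ∀ y ∈ S M x, y ∉ D M x := fun y hy => by
    rw [hS] at hy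
    exact hy.2.1
  have hcl := fun F : Finset ℕ => cl_iff (lam := lam) (V := V) (a := a) (b := b) (q := (x, t))
    (S := S M x) hu F
  -- paths between elements of the part stay in the part
  have hA : ∀ u v, u ∈ S M x → v ∈ S M x → Rch (Ar' m lam V a b M x) u v →
      Rch (fun c d => c ≠ d ∧ Ar' m lam V a b M x c d ∧ d ∈ S M x) u v := by
    intro u v hu' hv hr
    have key : ∀ w, Rch (Ar' m lam V a b M x) w v → w ∈ S M x →
        Rch (fun c d => c ≠ d ∧ Ar' m lam V a b M x c d ∧ d ∈ S M x) w v := by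
      intro w hw
      induction hw using Relation.ReflTransGen.head_induction_on with
      | refl => exact fun _ => Relation.ReflTransGen.refl
      | @head c d hcd hdv ih =>
        intro hc
        have hdV : d ∈ V M x := htr.arV c (hSV c hc) d hcd
        have hdD : d ∉ D M x := fun hd => hSD v hv (hcls.rch hd hdv)
        have hd : d ∈ S M x := by
          rw [hS]
          rw [hS] at hc
          exact hprt.arr q hq c hc d hdV hdD (Or.inl hcd)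
        by_cases hne : c = d
        · rw [hne]
          exact ih hd
        · exact Relation.ReflTransGen.head ⟨hne, hcd, hd⟩ (ih hd)
    exact key u hr hu'
  -- closures of finite sets are bounded
  have hB : ∀ F : Finset ℕ, Jb m lam M (V M x)
      {y | ∃ z : ℕ, z ∈ F ∧ z ∈ S M x ∧ Rch (Ar' m lam V a b M x) z y} := by
    intro F
    induction F using Finset.induction_on with
    | empty =>
      refine htr.mono _ ∅ htr.empty ?_
      rintro y ⟨z, hz, -⟩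
      exact absurd hz (Finset.notMem_empty z)
    | @insert c F _ ih =>
      by_cases hc : c ∈ S M x
      · refine htr.mono _ _ (htr.union _ _ (htr.rch_bdd (hSV c hc)) ih) ?_
        rintro y ⟨z, hz, hzS, hr⟩
        rcases Finset.mem_insert.1 hz with rfl | hz
        · exact Or.inl hr
        · exact Or.inr ⟨z, hz, hzS, hr⟩
      · refine htr.mono _ _ ih ?_
        rintro y ⟨z, hz, hzS, hr⟩
        rcases Finset.mem_insert.1 hz with rfl | hz
        · exact absurd hzS hc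
        · exact ⟨z, hz, hzS, hr⟩
  have hB' : ∀ F : Finset ℕ, Jb m lam M (V M x)
      (Pool.H27.SW.cl (Gf m a) (ex M (lbl m lam V a b M (x, t))) (S M x) ↑F) := by
    intro F
    refine htr.mono _ _ (hB F) ?_
    rw [hcl F]
    rintro y ⟨-, z, hz, hzS, hr⟩
    exact ⟨z, hz, hzS, Relation.ReflTransGen.mono (fun c d h => h.2.1) _ _ hr⟩
  refine ⟨⟨fun F hF => hn ?_, fun v hv => ?_⟩, hB'⟩
  · have h1 := hB' F
    rw [hF] at h1
    exact h1
  · have hv' := hv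
    change v ∈ S M x at hv'
    have hv2 := hv'
    rw [hS] at hv2
    obtain ⟨z, hz, hst⟩ := hprt.star q hq v hv2
    have hzS : z ∈ S M x := by
      rw [hS]
      exact hz
    refine ⟨{z}, fun w hw hwE => ?_⟩
    change w ∈ S M x at hw
    have hw2 := hw
    rw [hS] at hw2
    have h1 := hcl {w}
    rw [Finset.coe_singleton] at h1
    show v ∈ Pool.H27.SW.cl (Gf m a) (ex M (lbl m lam V a b M (x, t))) (S M x) {w}
    rw [h1]
    rcases hst w hw2 with h2 | h2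
    · exact ⟨hv', w, Finset.mem_singleton_self w, hw, hA w v hw hv' h2⟩
    · exfalso
      apply hwE
      show w ∈ Pool.H27.SW.cl (Gf m a) (ex M (lbl m lam V a b M (x, t))) (S M x)
        ↑({z} : Finset ℕ)
      rw [hcl {z}]
      exact ⟨hw, z, Finset.mem_singleton_self z, hzS, hA z w hzS hw h2⟩

end Pool.H5.WT
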