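import Pool.Agent.H5.W.T.Nlb

/-!
# THEOREM W, (THREE): the parts (module NLP)

Two cases (`few_or`, then `Few.mono`).
(1) the part is bounded (`Jb`): `few_bdd` (`BLs_prt`, `BLl_Lb'`, `BL_Ar'`).
(2) it is unbounded: `q3_of_gp` gives `Q3 .. M (x, t)` for all lists `t`, for `S M x = prt ..`. Over the
parameter type `(X × List ℕ) × Finset ℕ`: `few_bdd` for the family of closures `BLs_cl` with the labels
`lbl` (`BLl_lbl`, `BLl.pull`), condition `Jb` (with `V` pulled back), and `Few.tin` give a countable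
set `C` containing the types of all closures with labels; `ds_tin` for the parameter type
`X × List ℕ`, `Q = Q3`, `G = Gf m a` gives `C'`; `few_of_tin` for the parameter type `X`, the labels
`ℓ M x v = cod (Lb' .. M x v)` (its hypothesis with `lab M t` is `lbl .. M (x, t)` by definition) gives
`Few` for the labels `cod (Lb' ..)`, so for `Lb'` (`cod_inj`).
-/

set_option autoImplicit false

namespace Pool.H5.WT

open Set Ordinal Pool.H62.VT Pool.H62.VS Pool.H5.W Pool.H22.RW Pool.H17.W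

variable {B : Set (Str ca)} {θ κ₀ lam : Ordinal.{0}} {m K n : ℕ} {JJ XP X : Type} [Prm XP] [Prm X]
  {Φ : JJ → Str ca → XP → Set ℕ} {V D : Str ca → X → Set ℕ} {a : Fin n → Ix m}
  {b : X → Fin n → ℕ} {Z₀ : X → Finset ℕ}

theorem few_part [Countable JJ] (h : Ctx B θ m K κ₀ Φ) (hl : lam < ω₁) (hV : BLs B V)
    (hD : BLs B D) (hb : Eqm b) (r : ℕ) {Q : Set (Set (Zl n))} {q : Set (Zl n)} (hq : q ∈ Q) :
    Few B (fun M x => Gp (EM m M) (Jb m lam M (V M x)) a (b x) tau (V M x) (↑(Z₀ x)) r (D M x) Q)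
      (fun M x => prt (V M x) (Ar' m lam V a b M x) (Lb' m lam V a b M x) (D M x) q)
      (Lb' m lam V a b) := by
  obtain ⟨S, hSdef⟩ : ∃ S : Str ca → X → Set ℕ, S = fun M x =>
      prt (V M x) (Ar' m lam V a b M x) (Lb' m lam V a b M x) (D M x) q := ⟨_, rfl⟩
  have hφ : BLl B (Lb' m lam V a b) := BLl_Lb' h hl hV hb
  have hS : BLs B S := by
    rw [hSdef]
    exact BLs_prt hφ (BL_Ar' h hl hV hb) hV hD q
  have h1 : Few B (fun M x => Jb m lam M (V M x) (S M x)) S (Lb' m lam V a b) :=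
    few_bdd h hl hS hφ
  have hc : Few B (fun M (p : (X × List ℕ) × Finset ℕ) => Jb m lam M (V M p.1.1)
      (Pool.H27.SW.cl (Gf m a) (ex M (lbl m lam V a b M p.1)) (S M p.1.1) ↑p.2))
      (fun M (p : (X × List ℕ) × Finset ℕ) =>
        Pool.H27.SW.cl (Gf m a) (ex M (lbl m lam V a b M p.1)) (S M p.1.1) ↑p.2)
      (fun M (p : (X × List ℕ) × Finset ℕ) => lbl m lam V a b M p.1) :=
    few_bdd (V := fun M (p : (X × List ℕ) × Finset ℕ) => V M p.1.1) h hl
      (BLs_cl h hl hV hS hb)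
      (BLl.pull (BLl_lbl h hl hV hb) (g := fun p : (X × List ℕ) × Finset ℕ => p.1) Eqm.fst)
  obtain ⟨C, hC, hC2⟩ := Few.tin h.std hc
  obtain ⟨C', hC', hC2'⟩ := ds_tin h.std (BL_q3 h hl hV hS hb)
    (S := fun M (p : X × List ℕ) => S M p.1)
    (BLs.pull hS (g := fun p : X × List ℕ => p.1) Eqm.fst) (BLl_lbl h hl hV hb) (Gf m a)
    (fun M _ x hQ => hQ.1) hC (fun M hM x hQ F => hC2 M hM (x, F) (hQ.2 F))
  have h2 : Few B (fun M x => ∀ t : List ℕ, Q3 m lam V S a b M (x, t)) S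
      (fun M x v => cod (Lb' m lam V a b M x v)) :=
    few_of_tin hS (BL.comp hφ cod) hC' (fun M hM x t hQ => hC2' M hM (x, t) (hQ t))
  have h3 : Few B (fun M x => ∀ t : List ℕ, Q3 m lam V S a b M (x, t)) S (Lb' m lam V a b) := by
    obtain ⟨κ, hκ, h4⟩ := h2
    refine ⟨κ, hκ, fun M hM M' hM' x f hQ hb => ?_⟩
    obtain ⟨g, hg, hg2⟩ := h4 M hM M' hM' x f hQ hb
    exact ⟨g, hg, fun v hv => cod_inj (hg2 v hv)⟩
  have h5 := few_or h1 h3
  have h6 := Few.mono (Q' := fun M x => Gp (EM m M) (Jb m lam M (V M x)) a (b x) tau (V M x)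
    (↑(Z₀ x)) r (D M x) Q) h5 (fun M hM x hg => by
      by_cases hn : Jb m lam M (V M x) (S M x)
      · exact Or.inl hn
      · exact Or.inr fun t => q3_of_gp (h.un M hM) hq hg (by rw [hSdef]) hn t)
  rw [hSdef] at h6
  exact h6

end Pool.H5.WT
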